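import Pool.Agent.U26.SG.Kur6

/-!
# An upper bound for truncated fourth moments of Hecke-Maass cusp forms (MP_a54f13_nt)

The case `n = 4` of Q1 asks for `∫ ψ f⁴ dμ → 3 ∫ ψ dμ`. The theorem is an inequality in this direction
for the truncated fourth moments, which holds for every quantum uniquely ergodic sequence of real
eigenfunctions `f` of the hyperbolic Laplacian, `λ = 1/4 + t² → ∞`, and without any bound for higher
norms. The hypothesis is quantum unique ergodicity in its microlocal form, a theorem for Hecke-Maass
cusp forms (Lindenstrauss, Soundararajan). For an open set `Ω` of finite area, points `x_1, ..., x_N`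
of the plane and real weights `p_i` with sum `1`, and for large `t`,
`∫_Ω min(f⁴, M) dμ ≤ 3 ∫_Ω (∑ p_i f(z; x_i)²)² dμ(z) + ε`,
where `f(z; x) = f(z + y x/√λ)` are the values of `f` around `z` at the scale of the wavelength, and
the right hand side is the mean over all orthonormal frames at `z`. So for every fixed way of
averaging `f²` at the scale of the wavelength the truncated fourth moment is at most three times the
mean square of the averages (it is trivial for `N ≤ 3` equal weights only). If the `L²` mass of `f` in
small discs of radius `R/√λ` is asymptotically uniform in mean square, for `R → ∞`, then the upper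
bound is the Gaussian one, `3 μ(Ω)`.

Proof idea. Every sequence of such `f` has a subsequence for which the law of the function
`x ↦ f(z; x)`, seen in a random frame at a random point of `Ω`, converges to the law `P` of a random
solution `F` of `ΔF + F = 0` on the plane; `P` is translation invariant and has a finite second moment.
For every such law `E[F(0)⁴ | I] ≤ 3 E[F(0)² | I]²`, where `I` is the σ-algebra of the invariant events;
this is the theorem of the file `FourthMoments` of MP_4fa179_mp, where its proof is explained. As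
`E[F(0)² | I] = E[∑ p_i F(x_i)² | I]`, Jensen's inequality gives
`E F(0)⁴ ≤ 3 E (∑ p_i F(x_i)²)²`, and this is transferred to the `f` by weak convergence.

Parts of the proof are due to helpers 55, 88, 319, 346, 402, 433, 458, 688, 882 and 934.
-/

set_option autoImplicit false
open MeasureTheory Filter Topology Complex
open scoped ContDiff ENNReal

namespace Pool.Agent.Results.MP_a54f13_nt.FourthMoments

open Pool.Agent.W745.RW (lap)
open Pool.Agent.N661.BH (HP loc IsQuantumErgodic)

noncomputable section

/-- the measure `dμ = dx dy / y²` on the open set `Ω` of the half plane -/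
def hyp (Ω : Set ℂ) : Measure ℂ :=
  (volume.restrict Ω).withDensity fun z => ENNReal.ofReal (1 / z.im ^ 2)

/-- the mean of a function `G` of `N` points, with values in `[0, ∞]`, over all rotations and
reflections of the points `x j` -/
def frameMean {N : ℕ} (G : (Fin N → ℂ) → ℝ≥0∞) (x : Fin N → ℂ) : ℝ≥0∞ :=
  ENNReal.ofReal (1 / (4 * Real.pi)) * ∫⁻ θ in Set.Ioc 0 (2 * Real.pi),
    (G (fun j => exp (θ * I) * x j) + G (fun j => exp (θ * I) * starRingEnd ℂ (x j)))

/-- **Result.** Let `Ω ⊆ HP` be a nonempty open set of finite hyperbolic area, and let `f n` be real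
solutions of `-y² (∂x² + ∂y²) f = (1/4 + t²) f`, `t = t n → ∞`, on the half plane, quantum uniquely
ergodic in the unit cotangent bundle over `Ω`. Then for all points `x_i` of the plane and real numbers
`p_i` with sum `1`, all `M ≥ 0` and `ε > 0`, and all large `n`,
`∫_Ω min(f⁴, M) dμ ≤ 3 ∫_Ω frameMean (∑ p_i f(z; x_i)²)² dμ(z) + ε`, where `f = f n`,
`f(z; x) = loc λ f z x = f(z + y x/√λ)`, `λ = 1/4 + t²`. -/
theorem result (Ω : Set ℂ) (hΩ : IsOpen Ω) (hHP : Ω ⊆ HP) (hne : Ω.Nonempty)
    (hA : IntegrableOn (fun z : ℂ => 1 / z.im ^ 2) Ω)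
    (t : ℕ → ℝ) (ht : Tendsto t atTop atTop)
    (f : ℕ → ℂ → ℝ) (hf : ∀ n, ContDiffOn ℝ ∞ (f n) HP)
    (heq : ∀ n, ∀ z ∈ HP, -(z.im ^ 2 * lap (f n) z) = (1 / 4 + t n ^ 2) * f n z)
    (hqe : IsQuantumErgodic Ω (fun n => 1 / 4 + t n ^ 2) f)
    (N : ℕ) (x : Fin N → ℂ) (p : Fin N → ℝ) (hp : ∑ i, p i = 1)
    (M ε : ℝ) (hM : 0 ≤ M) (hε : 0 < ε) :
    ∀ᶠ n in atTop, ∫⁻ z, ENNReal.ofReal (min (f n z ^ 4) M) ∂(hyp Ω) ≤
      3 * (∫⁻ z, frameMean (fun a => ENNReal.ofReal
        ((∑ i, p i * loc (1 / 4 + t n ^ 2) (f n) z (a i) ^ 2) ^ 2)) x ∂(hyp Ω)) +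
        ENNReal.ofReal ε :=
  Pool.Agent.U26.SG.hyp_four hΩ hHP hne hA (lam := fun n => 1 / 4 + t n ^ 2)
    (fun n => by positivity)
    (tendsto_atTop_add_const_left _ _ ((tendsto_pow_atTop two_ne_zero).comp ht)) hf
    (fun n z hz => by have := heq n z hz; linarith) hqe x p hp hM hε

end

end Pool.Agent.Results.MP_a54f13_nt.FourthMoments
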