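import Mathlib
import Pool.Agent.U766.SN.Int
import Pool.Agent.U766.SN.GM
import Pool.Agent.N889.SN.Fin

set_option autoImplicit false

/-!
# MP_a54f13_nt: the boundedness of the moments is a question about one small disc

`HeckeMaass t f`: `f` is a real Hecke-Maass cusp form for the full modular group with spectral parameter
`t`, normalised by `(3 / π) ∫ f² dμ = 1` over the fundamental domain. On the upper half-plane `ℍ` all
integrals are with respect to `dμ = dx dy / y²` (the measure `volume` of Mathlib). `Big z₀ r`: some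
modular translate of `z₀` has height greater than `1 / (2 r)`; this holds for all `z₀` if `r > 1 / √3`,
and for arbitrarily small `r` if `z₀` is high in the cusp.

(1) If `Big z₀ r` and `Ω` is compact there are `C`, `M` such that
`∫_Ω φ(|f|) dμ ≤ M ∫_D φ(C |f|) dμ`, `D` the hyperbolic disc with centre `z₀` and radius `r`, for ALL
Hecke-Maass forms `f` and ALL nondecreasing `φ` with `φ(0) = 0`: the value distributions on compact
sets are controlled by the one on `D`.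
(2), (3) In particular all moments `∫_Ω |f|^p dμ` are at most `C_p ∫_D |f|^p dμ`, and the `p`-th moments
of a family of forms are bounded on all compact sets if and only if they are bounded on `D`.
(4) If the integrals `∫ ψ₀ f_i^n dμ` of question Q1 are bounded for one even `n` and one `ψ₀ ≥ 0`
with `ψ₀ ≥ 1` on `D`, then the `n`-th moments are bounded on all compact sets and the lower moments
are uniformly integrable.
(5) If a sequence of forms obeys the random wave law in the weak sense (bounded continuous test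
functions of the values) and the moments are bounded on `D`, then it satisfies Q1, for every `n`.

Proof of (1). Every point `z` of `Ω` has finitely many translates under integral matrices with bounded
entries in `D` such that `|f(z)|` is at most `C` times the maximum of `|f|` at these points: compact
sets are controlled by high points (proof of `CuspControlsCompactSets`), these by a thin horizontal
strip contained in `D` modulo translations (proof of `OneSmallDiscControls`, MP_8fded1_nt), and the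
matrices preserve `dμ`.
-/

namespace Pool.Agent.Results.MP_a54f13_nt.MomentsAreLocal

open MeasureTheory UpperHalfPlane Filter Topology
open scoped ContDiff ENNReal MatrixGroups Modular
open Pool.Agent.U766.SN (Good)

/-- real-valued Hecke-Maass cusp forms for `SL_2(ℤ)` with spectral parameter `t`, normalised -/
structure HeckeMaass (t : ℝ) (f : ℂ → ℝ) : Prop where
  pos : 0 < t
  smooth : ContDiffOn ℝ ∞ f {z : ℂ | 0 < z.im}
  inv : ∀ z : ℂ, 0 < z.im → f (z + 1) = f z ∧ f (-z⁻¹) = f z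
  eigen : ∀ z : ℂ, 0 < z.im →
    -z.im ^ 2 * (deriv (deriv (fun s : ℝ => f (z + (s : ℂ)))) 0 +
      deriv (deriv (fun s : ℝ => f (z + (s : ℂ) * Complex.I))) 0) = (1 / 4 + t ^ 2) * f z
  cusp : ∀ y : ℝ, 0 < y → ∫ x in (0 : ℝ)..1, f ((x : ℂ) + (y : ℂ) * Complex.I) = 0
  norm : 3 / Real.pi * ∫ z in {z : ℂ | 0 < z.im ∧ |z.re| ≤ 1 / 2 ∧ 1 ≤ ‖z‖}, f z ^ 2 / z.im ^ 2 = 1
  hecke : ∀ n : ℕ, 1 ≤ n → ∃ c : ℝ, ∀ z : ℂ, 0 < z.im →
    ∑ d ∈ n.divisors, ∑ b ∈ Finset.range d, f ((((n / d : ℕ) : ℂ) * z + (b : ℂ)) / (d : ℂ)) = c * f z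

/-- some modular translate of `z₀` has height greater than `1 / (2 r)` -/
def Big (z₀ : ℍ) (r : ℝ) : Prop := ∃ g : SL(2, ℤ), 1 < 2 * r * (g • z₀).im

/-- the constants `C_n`: moments of the standard Gaussian law -/
noncomputable def gauss (g : ℝ → ℝ) : ℝ := 1 / √(2 * Real.pi) * ∫ x : ℝ, g x * Real.exp (-(x ^ 2) / 2)

lemma cont {t : ℝ} {f : ℂ → ℝ} (hf : HeckeMaass t f) : Continuous fun z : ℍ => f z :=
  hf.smooth.continuousOn.comp_continuous UpperHalfPlane.continuous_coe fun z => z.im_pos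

lemma good {t : ℝ} {f : ℂ → ℝ} (hf : HeckeMaass t f) : Good Pool.Agent.N889.SN.KK (fun z => (f z : ℂ)) := by
  have hinv : ∀ z : ℂ, 0 < z.im → ((f (z + 1) : ℝ) : ℂ) = (f z : ℂ) ∧ ((f (-z⁻¹) : ℝ) : ℂ) = (f z : ℂ) :=
    fun z hz => by rw [(hf.inv z hz).1, (hf.inv z hz).2]; exact ⟨rfl, rfl⟩
  refine ⟨⟨fun z hz => (hinv z hz).1, fun p hp => ?_⟩, fun z hz => (hinv z hz).2⟩
  obtain ⟨c, hc⟩ := hf.hecke p hp.one_le
  have hc' : ∀ z : ℂ, 0 < z.im → (f (p * z) : ℂ) + ∑ b ∈ Finset.range p, (f ((z + b) / p) : ℂ) = (c : ℂ) * f z := by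
    intro z hz
    have h1 := hc z hz
    rw [hp.divisors, Finset.sum_pair hp.one_lt.ne] at h1
    have h2 : f (p * z) + ∑ b ∈ Finset.range p, f ((z + b) / p) = c * f z := by
      rw [← h1]
      simp [Nat.div_self hp.pos]
    exact_mod_cast h2
  refine ⟨c, ?_, hc'⟩
  have hm : Measurable (fun z : ℍ => ENNReal.ofReal (‖(f z : ℂ)‖ ^ 2)) := by
    refine (ENNReal.continuous_ofReal.comp (Continuous.pow ?_ 2)).measurable
    exact (Complex.continuous_ofReal.comp (cont hf)).norm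
  have hint : ∫ z in {z : ℂ | 0 < z.im ∧ |z.re| ≤ 1 / 2 ∧ 1 ≤ ‖z‖}, ‖(f z : ℂ)‖ ^ 2 / z.im ^ 2 = Real.pi / 3 := by
    have h1 := hf.norm
    have hpi := Real.pi_pos
    have h2 : ∀ z : ℂ, ‖(f z : ℂ)‖ ^ 2 / z.im ^ 2 = f z ^ 2 / z.im ^ 2 := fun z => by
      rw [Complex.norm_real, Real.norm_eq_abs, sq_abs]
    simp only [h2]
    generalize (∫ z in {z : ℂ | 0 < z.im ∧ |z.re| ≤ 1 / 2 ∧ 1 ≤ ‖z‖}, f z ^ 2 / z.im ^ 2) = I at h1 ⊢
    rw [div_mul_eq_mul_div, div_eq_one_iff_eq hpi.ne'] at h1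
    linarith
  have h1 : ∫⁻ z in 𝒟, ENNReal.ofReal (‖(f (z : ℍ) : ℂ)‖ ^ 2) = ENNReal.ofReal (Real.pi / 3) := by
    rw [Pool.Agent.N889.SN.lint_eq (fun z => ENNReal.ofReal (‖(f z : ℂ)‖ ^ 2 / z.im ^ 2)) _ hm]
    · have hi : Integrable (fun z : ℂ => ‖(f z : ℂ)‖ ^ 2 / z.im ^ 2)
          (volume.restrict {z : ℂ | 0 < z.im ∧ |z.re| ≤ 1 / 2 ∧ 1 ≤ ‖z‖}) := by
        by_contra hni
        rw [integral_undef hni] at hint
        have := Real.pi_pos
        linarith
      rw [← ofReal_integral_eq_lintegral_ofReal hi (Filter.Eventually.of_forall fun z => by positivity), hint]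
    · intro z
      have hz := z.im_pos
      have e : (((1 / NNReal.mk z.im z.im_pos.le : NNReal) ^ 2 : NNReal) : ℝ≥0∞) = ENNReal.ofReal ((1 / z.im) ^ 2) := by
        rw [ENNReal.ofReal, ENNReal.coe_inj]
        ext
        rw [Real.coe_toNNReal _ (by positivity)]
        simp
      rw [e, ← ENNReal.ofReal_mul (by positivity)]
      congr 1
      rw [UpperHalfPlane.coe_im]
      field_simp
  have e : Pool.Agent.N889.SN.KK p = (Pool.Agent.N889.SN.eig p hp).choose := by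
    unfold Pool.Agent.N889.SN.KK
    rw [dif_pos hp]
  have hpi := Real.pi_pos
  rw [e]
  exact (Pool.Agent.N889.SN.eig p hp).choose_spec.2 (fun z => (f z : ℂ)) hm
    (fun g z => Pool.Agent.Results.MP_8fded1_nt.EllipticPointIsHarmless.invariance (U := fun z => (f z : ℂ)) hinv g z)
    (by rw [h1]; simp; positivity) (by rw [h1]; exact ENNReal.ofReal_ne_top) c hc'

lemma isCompact_coe {Ω : Set ℍ} (hΩ : IsCompact Ω) : IsCompact ((fun z : ℍ => (z : ℂ)) '' Ω) :=
  hΩ.image UpperHalfPlane.continuous_coe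

lemma coe_sub (Ω : Set ℍ) : (fun z : ℍ => (z : ℂ)) '' Ω ⊆ {z : ℂ | 0 < z.im} := by
  rintro _ ⟨z, -, rfl⟩
  exact z.im_pos

/-- part (1) -/
theorem one (z₀ : ℍ) (r : ℝ) (hr : Big z₀ r) (Ω : Set ℍ) (hΩ : IsCompact Ω) :
    ∃ C : ℝ, 0 < C ∧ ∃ M : ℕ, ∀ (t : ℝ) (f : ℂ → ℝ), HeckeMaass t f → ∀ φ : ℝ → ℝ≥0∞, Monotone φ → φ 0 = 0 →
      ∫⁻ z in Ω, φ |f (z : ℍ)| ≤ M * ∫⁻ z in Metric.ball z₀ r, φ (C * |f (z : ℍ)|) := by
  obtain ⟨g, hg⟩ := hr
  obtain ⟨C, k, hC, h⟩ := Pool.Agent.U766.SN.disc2 Pool.Agent.N889.SN.KK Pool.Agent.N889.SN.KK_nonneg z₀ g r hg _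
    (isCompact_coe hΩ) (coe_sub Ω)
  refine ⟨C, hC, (Pool.Agent.U766.SN.F k).card, fun t f hf φ hφ hφ0 => ?_⟩
  have hn : ∀ z : ℂ, ‖(f z : ℂ)‖ = |f z| := fun z => by rw [Complex.norm_real, Real.norm_eq_abs]
  have h1 := Pool.Agent.U766.SN.integ hΩ.isClosed.measurableSet h (good hf)
    (by simp only [hn]; exact (cont hf).abs.measurable) φ hφ hφ0
  simpa only [hn] using h1

lemma cont_pow {t : ℝ} {f : ℂ → ℝ} (hf : HeckeMaass t f) {p : ℝ} (hp : 0 < p) :
    Continuous fun z : ℍ => |f z| ^ p :=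
  (cont hf).abs.rpow_const fun _ => Or.inr hp.le

lemma int_compact {g : ℍ → ℝ} (hg : Continuous g) {Ω : Set ℍ} (hΩ : IsCompact Ω) : IntegrableOn g Ω :=
  hg.continuousOn.integrableOn_compact hΩ

lemma int_ball {g : ℍ → ℝ} (hg : Continuous g) (z₀ : ℍ) (r : ℝ) : IntegrableOn g (Metric.ball z₀ r) :=
  (int_compact hg (isCompact_closedBall z₀ r)).mono_set Metric.ball_subset_closedBall

/-- part (2) -/
theorem two (z₀ : ℍ) (r : ℝ) (hr : Big z₀ r) (Ω : Set ℍ) (hΩ : IsCompact Ω) (p : ℝ) (hp : 0 < p) :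
    ∃ C : ℝ, 0 < C ∧ ∀ (t : ℝ) (f : ℂ → ℝ), HeckeMaass t f →
      ∫ z in Ω, |f (z : ℍ)| ^ p ≤ C * ∫ z in Metric.ball z₀ r, |f (z : ℍ)| ^ p := by
  obtain ⟨C, hC, M, h⟩ := one z₀ r hr Ω hΩ
  refine ⟨(M + 1) * C ^ p, by positivity, fun t f hf => ?_⟩
  have h1 := h t f hf (fun x => ENNReal.ofReal ((max x 0) ^ p)) (fun x y hxy => by
    refine ENNReal.ofReal_le_ofReal ?_
    gcongr) (by simp [Real.zero_rpow hp.ne'])
  have e1 : ∀ x : ℝ, max |x| 0 = |x| := fun x => max_eq_left (abs_nonneg x)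
  have e2 : ∀ x : ℝ, max (C * |x|) 0 = C * |x| := fun x => max_eq_left (by positivity)
  simp only [e1, e2, Real.mul_rpow hC.le (abs_nonneg _)] at h1
  have hI := int_compact (cont_pow hf hp) hΩ
  have hJ := (int_ball (cont_pow hf hp) z₀ r).const_mul (C ^ p)
  rw [← ofReal_integral_eq_lintegral_ofReal hI (Eventually.of_forall fun z => by positivity),
    ← ofReal_integral_eq_lintegral_ofReal hJ (Eventually.of_forall fun z => by positivity),
    integral_const_mul] at h1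
  have hB : 0 ≤ ∫ z in Metric.ball z₀ r, |f (z : ℍ)| ^ p := integral_nonneg fun z => by positivity
  have h2 : ENNReal.ofReal (∫ z in Ω, |f (z : ℍ)| ^ p) ≤
      ENNReal.ofReal (M * (C ^ p * ∫ z in Metric.ball z₀ r, |f (z : ℍ)| ^ p)) := by
    rw [ENNReal.ofReal_mul (by positivity), ENNReal.ofReal_natCast]
    exact h1
  rw [ENNReal.ofReal_le_ofReal_iff (by positivity)] at h2
  refine h2.trans ?_
  have : 0 ≤ C ^ p * ∫ z in Metric.ball z₀ r, |f (z : ℍ)| ^ p := by positivity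
  nlinarith

/-- uniform integrability of the lower moments -/
lemma tail {t : ℝ} {f : ℂ → ℝ} (hf : HeckeMaass t f) {Ω : Set ℍ} (hΩ : IsCompact Ω) {p q A B : ℝ} (hq : 0 < q)
    (hqp : q < p) (hB : 0 < B) (hA : ∫ z in Ω, |f (z : ℍ)| ^ p ≤ A) :
    ∫ z in Ω ∩ {z : ℍ | B < |f z|}, |f (z : ℍ)| ^ q ≤ B ^ (q - p) * A := by
  have hp : 0 < p := hq.trans hqp
  have hm : MeasurableSet {z : ℍ | B < |f z|} := (isOpen_lt continuous_const (cont hf).abs).measurableSet
  have hΩm : MeasurableSet Ω := hΩ.isClosed.measurableSet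
  have hI := int_compact (cont_pow hf hp) hΩ
  have hJ := int_compact (cont_pow hf hq) hΩ
  calc ∫ z in Ω ∩ {z : ℍ | B < |f z|}, |f (z : ℍ)| ^ q
      ≤ ∫ z in Ω ∩ {z : ℍ | B < |f z|}, B ^ (q - p) * |f (z : ℍ)| ^ p := by
        refine setIntegral_mono_on (hJ.mono_set Set.inter_subset_left)
          ((hI.mono_set Set.inter_subset_left).const_mul _) (hΩm.inter hm) fun z hz => ?_
        have h1 : B < |f z| := hz.2
        have h0 : 0 < |f z| := hB.trans h1
        have h2 : |f z| ^ q = |f z| ^ (q - p) * |f z| ^ p := by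
          rw [← Real.rpow_add h0]
          congr 1
          ring
        rw [h2]
        gcongr ?_ * _
        exact Real.rpow_le_rpow_of_nonpos hB h1.le (by linarith)
    _ = B ^ (q - p) * ∫ z in Ω ∩ {z : ℍ | B < |f z|}, |f (z : ℍ)| ^ p := integral_const_mul _ _
    _ ≤ B ^ (q - p) * ∫ z in Ω, |f (z : ℍ)| ^ p := by
        refine mul_le_mul_of_nonneg_left (setIntegral_mono_set hI (Eventually.of_forall fun z => by positivity)
          (Eventually.of_forall fun z hz => hz.1)) (by positivity)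
    _ ≤ _ := by gcongr

/-- a power of a large number is small -/
lemma small {A s ε : ℝ} (hs : 0 < s) (hε : 0 < ε) : ∃ B : ℝ, 0 < B ∧ B ^ (-s) * A ≤ ε := by
  have h := (tendsto_rpow_neg_atTop hs).mul_const A
  rw [zero_mul] at h
  obtain ⟨B, hB, hB'⟩ := ((h.eventually (gt_mem_nhds hε)).and (eventually_gt_atTop 0)).exists
  exact ⟨B, hB', hB.le⟩

/-- part (4) -/
theorem four {ι : Type} (t : ι → ℝ) (f : ι → ℂ → ℝ) (hf : ∀ i, HeckeMaass (t i) (f i)) (z₀ : ℍ) (r : ℝ)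
    (hr : Big z₀ r) (n : ℕ) (hn : Even n) (hn0 : 0 < n) (ψ : ℍ → ℝ) (hψ : Continuous ψ) (hψc : HasCompactSupport ψ)
    (hψ0 : ∀ z, 0 ≤ ψ z) (hψ1 : ∀ z, dist z z₀ < r → 1 ≤ ψ z)
    (hb : ∃ A : ℝ, ∀ i, ∫ z : ℍ, ψ z * f i z ^ n ≤ A) (Ω : Set ℍ) (hΩ : IsCompact Ω) :
    (∃ A : ℝ, ∀ i, ∫ z in Ω, |f i (z : ℍ)| ^ (n : ℝ) ≤ A) ∧
    ∀ q : ℝ, 0 < q → q < n → ∀ ε : ℝ, 0 < ε → ∃ B : ℝ, ∀ i,
      ∫ z in Ω ∩ {z : ℍ | B < |f i z|}, |f i (z : ℍ)| ^ q ≤ ε := by
  obtain ⟨A, hA⟩ := hb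
  have hn0' : (0 : ℝ) < n := by exact_mod_cast hn0
  obtain ⟨C, hC, h⟩ := two z₀ r hr Ω hΩ n hn0'
  have key : ∀ i, ∫ z in Ω, |f i (z : ℍ)| ^ (n : ℝ) ≤ C * A := by
    intro i
    refine (h (t i) (f i) (hf i)).trans ?_
    gcongr
    refine le_trans ?_ (hA i)
    have e : ∀ z : ℍ, |f i z| ^ (n : ℝ) = f i z ^ n := fun z => by
      rw [Real.rpow_natCast, hn.pow_abs]
    simp only [e]
    have hc : Continuous fun z : ℍ => ψ z * f i z ^ n := hψ.mul ((cont (hf i)).pow n)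
    have hI : Integrable fun z : ℍ => ψ z * f i z ^ n := hc.integrable_of_hasCompactSupport hψc.mul_right
    have hb1 : IntegrableOn (fun z : ℍ => f i z ^ n) (Metric.ball z₀ r) := int_ball ((cont (hf i)).pow n) z₀ r
    calc ∫ z in Metric.ball z₀ r, f i (z : ℍ) ^ n ≤ ∫ z in Metric.ball z₀ r, ψ z * f i (z : ℍ) ^ n := by
          refine setIntegral_mono_on hb1 hI.integrableOn Metric.isOpen_ball.measurableSet fun z hz => ?_
          have h1 := hψ1 z hz
          have h2 : 0 ≤ f i z ^ n := hn.pow_nonneg _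
          nlinarith
      _ ≤ ∫ z : ℍ, ψ z * f i (z : ℍ) ^ n :=
          setIntegral_le_integral hI (Eventually.of_forall fun z => mul_nonneg (hψ0 z) (hn.pow_nonneg _))
  refine ⟨⟨_, key⟩, fun q hq hqn ε hε => ?_⟩
  obtain ⟨B, hB, hB'⟩ := small (A := C * A) (s := n - q) (by linarith) hε
  refine ⟨B, fun i => (tail (hf i) hΩ hq hqn hB (key i)).trans ?_⟩
  rw [neg_sub] at hB'
  exact hB'

lemma clip (B : ℝ) (hB : 0 < B) (n : ℕ) (x : ℝ) :
    |x ^ n - (max (-B) (min B x)) ^ n| ≤ 2 / B * |x| ^ (n + 1) := by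
  rcases le_or_gt |x| B with h | h
  · have h1 := abs_le.1 h
    rw [min_eq_right h1.2, max_eq_right h1.1, sub_self, abs_zero]
    positivity
  · have h2 : |max (-B) (min B x)| ≤ |x| := by
      rcases le_total 0 x with hx | hx
      · rw [abs_of_nonneg hx] at h ⊢
        rw [min_eq_left h.le, max_eq_right (by linarith), abs_of_pos hB]
        exact h.le
      · rw [abs_of_nonpos hx] at h ⊢
        rw [min_eq_right (by linarith), max_eq_left (by linarith), abs_neg, abs_of_pos hB]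
        exact h.le
    calc |x ^ n - (max (-B) (min B x)) ^ n| ≤ |x ^ n| + |(max (-B) (min B x)) ^ n| := abs_sub _ _
      _ = |x| ^ n + |max (-B) (min B x)| ^ n := by rw [abs_pow, abs_pow]
      _ ≤ |x| ^ n + |x| ^ n := by gcongr
      _ = 2 / B * (B * |x| ^ n) := by field_simp; ring
      _ ≤ 2 / B * (|x| * |x| ^ n) := by gcongr
      _ = _ := by rw [pow_succ]; ring

lemma gauss_int (n : ℕ) : Integrable fun x : ℝ => |x| ^ n * Real.exp (-(x ^ 2) / 2) := by
  have h := integrable_rpow_mul_exp_neg_mul_sq (b := 1 / 2) (by norm_num) (s := (n : ℝ))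
    (by have : (0 : ℝ) ≤ n := n.cast_nonneg; linarith)
  refine h.norm.congr (Eventually.of_forall fun x => ?_)
  simp only
  rw [Real.norm_eq_abs, abs_mul, Real.rpow_natCast, abs_pow, abs_of_pos (Real.exp_pos _)]
  congr 2
  ring

lemma gauss_int' (n : ℕ) : Integrable fun x : ℝ => x ^ n * Real.exp (-(x ^ 2) / 2) := by
  refine (gauss_int n).mono (by fun_prop) (Eventually.of_forall fun x => ?_)
  rw [norm_mul, norm_mul, norm_pow, norm_pow]
  simp

/-- part (5) -/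
theorem five (t : ℕ → ℝ) (f : ℕ → ℂ → ℝ) (hf : ∀ i, HeckeMaass (t i) (f i)) (z₀ : ℍ) (r : ℝ)
    (hr : Big z₀ r)
    (hweak : ∀ ψ : ℍ → ℝ, Continuous ψ → HasCompactSupport ψ → ∀ g : ℝ → ℝ, Continuous g → (∃ M, ∀ x, |g x| ≤ M) →
      Tendsto (fun i => ∫ z : ℍ, ψ z * g (f i z)) atTop (𝓝 (gauss g * ∫ z : ℍ, ψ z)))
    (hmom : ∀ n : ℕ, ∃ A : ℝ, ∀ i, ∫ z in Metric.ball z₀ r, |f i (z : ℍ)| ^ (n : ℝ) ≤ A)
    (n : ℕ) (ψ : ℍ → ℝ) (hψ : Continuous ψ) (hψc : HasCompactSupport ψ) :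
    Tendsto (fun i => ∫ z : ℍ, ψ z * f i z ^ n) atTop (𝓝 (gauss (fun x => x ^ n) * ∫ z : ℍ, ψ z)) := by
  have hS : IsCompact (tsupport ψ) := hψc
  obtain ⟨Ψ, hΨ⟩ := hψc.exists_bound_of_continuous hψ
  have hn1 : (0 : ℝ) < ((n + 1 : ℕ) : ℝ) := by positivity
  obtain ⟨C, hC, h2⟩ := two z₀ r hr _ hS ((n + 1 : ℕ) : ℝ) hn1
  obtain ⟨A, hA⟩ := hmom (n + 1)
  have hA' : ∀ i, ∫ z in tsupport ψ, |f i (z : ℍ)| ^ (n + 1) ≤ C * |A| := by
    intro i
    have h3 := (h2 (t i) (f i) (hf i)).trans (mul_le_mul_of_nonneg_left ((hA i).trans (le_abs_self A)) hC.le)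
    simpa only [Real.rpow_natCast] using h3
  obtain ⟨Gm, hGm⟩ : ∃ Gm : ℝ, Gm = ∫ x : ℝ, |x| ^ (n + 1) * Real.exp (-(x ^ 2) / 2) := ⟨_, rfl⟩
  -- the truncated functions
  have E1 : ∀ B : ℝ, 0 < B → ∀ i, |(∫ z : ℍ, ψ z * f i z ^ n) - ∫ z : ℍ, ψ z * (max (-B) (min B (f i z))) ^ n| ≤
      2 / B * (|Ψ| * (C * |A|)) := by
    intro B hB i
    have c1 : Continuous fun z : ℍ => ψ z * f i z ^ n := hψ.mul ((cont (hf i)).pow n)
    have c2 : Continuous fun z : ℍ => ψ z * (max (-B) (min B (f i z))) ^ n :=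
      hψ.mul ((continuous_const.max (continuous_const.min (cont (hf i)))).pow n)
    have i1 : Integrable fun z : ℍ => ψ z * f i z ^ n := c1.integrable_of_hasCompactSupport hψc.mul_right
    have i2 : Integrable fun z : ℍ => ψ z * (max (-B) (min B (f i z))) ^ n :=
      c2.integrable_of_hasCompactSupport hψc.mul_right
    rw [← integral_sub i1 i2]
    have e : ∫ z : ℍ, (ψ z * f i z ^ n - ψ z * (max (-B) (min B (f i z))) ^ n) =
        ∫ z in tsupport ψ, (ψ z * f i z ^ n - ψ z * (max (-B) (min B (f i z))) ^ n) := by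
      rw [setIntegral_eq_integral_of_forall_compl_eq_zero]
      intro z hz
      rw [image_eq_zero_of_notMem_tsupport hz]
      ring
    rw [e, ← Real.norm_eq_abs]
    have c3 : Continuous fun z : ℍ => |f i z| ^ (n + 1) := (cont (hf i)).abs.pow _
    have i3 := int_compact c3 hS
    refine (norm_integral_le_of_norm_le (i3.const_mul (2 / B * |Ψ|)) (Eventually.of_forall fun z => ?_)).trans ?_
    · rw [← mul_sub, norm_mul, Real.norm_eq_abs (_ - _)]
      calc ‖ψ z‖ * |f i z ^ n - (max (-B) (min B (f i z))) ^ n| ≤ |Ψ| * (2 / B * |f i z| ^ (n + 1)) := by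
            gcongr
            · exact (hΨ z).trans (le_abs_self _)
            · exact clip B hB n _
        _ = _ := by ring
    · rw [integral_const_mul]
      calc 2 / B * |Ψ| * ∫ z in tsupport ψ, |f i (z : ℍ)| ^ (n + 1) ≤ 2 / B * |Ψ| * (C * |A|) := by
            gcongr
            exact hA' i
        _ = _ := by ring
  have hpi : 0 < 1 / √(2 * Real.pi) := by
    have := Real.pi_pos
    positivity
  have E2 : ∀ B : ℝ, 0 < B → |gauss (fun x => x ^ n) - gauss (fun x => (max (-B) (min B x)) ^ n)| ≤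
      2 / B * (1 / √(2 * Real.pi) * Gm) := by
    intro B hB
    have i2 : Integrable fun x : ℝ => (max (-B) (min B x)) ^ n * Real.exp (-(x ^ 2) / 2) := by
      have h3 := gauss_int' 0
      simp only [pow_zero, one_mul] at h3
      refine (h3.const_mul (B ^ n)).mono (by fun_prop) (Eventually.of_forall fun x => ?_)
      rw [norm_mul, norm_mul, norm_pow, norm_pow]
      gcongr
      rw [Real.norm_eq_abs, Real.norm_eq_abs, abs_of_pos hB, abs_le]
      exact ⟨le_max_left _ _, max_le (by linarith) (min_le_left _ _)⟩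
    unfold gauss
    rw [← mul_sub, ← integral_sub (gauss_int' n) i2, abs_mul, abs_of_pos hpi, ← Real.norm_eq_abs]
    have h3 : ‖∫ x : ℝ, (x ^ n * Real.exp (-(x ^ 2) / 2) - (max (-B) (min B x)) ^ n * Real.exp (-(x ^ 2) / 2))‖ ≤
        2 / B * Gm := by
      rw [hGm, ← integral_const_mul]
      refine norm_integral_le_of_norm_le ((gauss_int (n + 1)).const_mul _) (Eventually.of_forall fun x => ?_)
      rw [← sub_mul, norm_mul, Real.norm_eq_abs, Real.norm_eq_abs, abs_of_pos (Real.exp_pos _)]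
      calc |x ^ n - (max (-B) (min B x)) ^ n| * Real.exp (-(x ^ 2) / 2)
          ≤ (2 / B * |x| ^ (n + 1)) * Real.exp (-(x ^ 2) / 2) := by
            gcongr
            exact clip B hB n x
        _ = _ := by ring
    calc 1 / √(2 * Real.pi) * ‖∫ x : ℝ, (x ^ n * Real.exp (-(x ^ 2) / 2) -
          (max (-B) (min B x)) ^ n * Real.exp (-(x ^ 2) / 2))‖ ≤ 1 / √(2 * Real.pi) * (2 / B * Gm) := by gcongr
      _ = _ := by ring
  have hG0 : 0 ≤ Gm := by
    rw [hGm]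
    exact integral_nonneg fun x => by positivity
  rw [Metric.tendsto_atTop]
  intro ε hε
  -- the choice of `B`
  obtain ⟨B, hB, hB1, hB2⟩ : ∃ B : ℝ, 0 < B ∧ 2 / B * (|Ψ| * (C * |A|)) ≤ ε / 4 ∧
      2 / B * (1 / √(2 * Real.pi) * Gm) * |∫ z : ℍ, ψ z| ≤ ε / 4 := by
    set S₁ := |Ψ| * (C * |A|) with hS₁
    set S₂ := 1 / √(2 * Real.pi) * Gm * |∫ z : ℍ, ψ z| with hS₂
    have p1 : 0 ≤ S₁ := by positivity
    have p2 : 0 ≤ S₂ := by positivity
    have hBpos : 0 < 8 * (S₁ + S₂ + 1) / ε := by positivity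
    refine ⟨8 * (S₁ + S₂ + 1) / ε, hBpos, ?_, ?_⟩
    · rw [div_mul_eq_mul_div, div_le_iff₀ hBpos]
      have : ε / 4 * (8 * (S₁ + S₂ + 1) / ε) = 2 * (S₁ + S₂ + 1) := by field_simp; ring
      rw [this]
      linarith
    · rw [mul_assoc, ← hS₂, div_mul_eq_mul_div, div_le_iff₀ hBpos]
      have : ε / 4 * (8 * (S₁ + S₂ + 1) / ε) = 2 * (S₁ + S₂ + 1) := by field_simp; ring
      rw [this]
      linarith
  have h5 := hweak ψ hψ hψc (fun x => (max (-B) (min B x)) ^ n)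
    ((continuous_const.max (continuous_const.min continuous_id)).pow n) ⟨B ^ n, fun x => by
      rw [abs_pow]
      gcongr
      rw [abs_le]
      exact ⟨le_max_left _ _, max_le (by linarith) (min_le_left _ _)⟩⟩
  rw [Metric.tendsto_atTop] at h5
  obtain ⟨N, hN⟩ := h5 (ε / 4) (by positivity)
  refine ⟨N, fun i hi => ?_⟩
  have h6 := hN i hi
  have h7 := E1 B hB i
  have h8 : |gauss (fun x => x ^ n) * (∫ z : ℍ, ψ z) - gauss (fun x => (max (-B) (min B x)) ^ n) * ∫ z : ℍ, ψ z| ≤ ε / 4 := by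
    rw [← sub_mul, abs_mul]
    exact (mul_le_mul_of_nonneg_right (E2 B hB) (abs_nonneg _)).trans hB2
  rw [Real.dist_eq] at h6 ⊢
  have h9 := abs_le.1 (h7.trans hB1)
  have h10 := abs_le.1 h8
  have h11 := abs_lt.1 h6
  rw [abs_lt]
  constructor <;> linarith [h9.1, h9.2, h10.1, h10.2, h11.1, h11.2]

/-- the values of the forms follow the random wave law in the weak sense -/
def WeakLaw (f : ℕ → ℂ → ℝ) : Prop :=
  ∀ ψ : ℍ → ℝ, Continuous ψ → HasCompactSupport ψ → ∀ g : ℝ → ℝ, Continuous g → (∃ M, ∀ x, |g x| ≤ M) →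
    Tendsto (fun i => ∫ z : ℍ, ψ z * g (f i z)) atTop (𝓝 (gauss g * ∫ z : ℍ, ψ z))

/-- the assertion of Q1 for the sequence `f`, with test functions in `C_c(ℍ)` -/
def GaussianMoments (f : ℕ → ℂ → ℝ) : Prop :=
  ∀ n : ℕ, ∀ ψ : ℍ → ℝ, Continuous ψ → HasCompactSupport ψ →
    Tendsto (fun i => ∫ z : ℍ, ψ z * f i z ^ n) atTop (𝓝 (gauss (fun x => x ^ n) * ∫ z : ℍ, ψ z))

lemma weak_nonneg {t : ℕ → ℝ} {f : ℕ → ℂ → ℝ} (hf : ∀ i, HeckeMaass (t i) (f i)) (h : GaussianMoments f)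
    (ψ : ℍ → ℝ) (hψ : Continuous ψ) (hψc : HasCompactSupport ψ) (hψ0 : ∀ z, 0 ≤ ψ z) (g : ℝ → ℝ) (hg : Continuous g)
    (hb : ∃ M, ∀ x, |g x| ≤ M) :
    Tendsto (fun i => ∫ z : ℍ, ψ z * g (f i z)) atTop (𝓝 (gauss g * ∫ z : ℍ, ψ z)) := by
  have hI : Integrable ψ := hψ.integrable_of_hasCompactSupport hψc
  set q : ℍ → NNReal := fun z => Real.toNNReal (ψ z) with hq
  have hqm : Measurable q := hψ.measurable.real_toNNReal
  have hqc : ∀ z, ((q z : NNReal) : ℝ) = ψ z := fun z => Real.coe_toNNReal _ (hψ0 z)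
  set ν : Measure ℍ := volume.withDensity fun z => (q z : ℝ≥0∞) with hν
  have hint : ∀ F : ℍ → ℝ, ∫ z, F z ∂ν = ∫ z, ψ z * F z := by
    intro F
    rw [hν, integral_withDensity_eq_integral_smul hqm]
    refine integral_congr_ae (Eventually.of_forall fun z => ?_)
    simp only
    rw [NNReal.smul_def, hqc, smul_eq_mul]
  have hint' : ∀ F : ℍ → ℝ, Integrable (fun z => ψ z * F z) → Integrable F ν := by
    intro F hF
    rw [hν, integrable_withDensity_iff_integrable_smul hqm]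
    refine hF.congr (Eventually.of_forall fun z => ?_)
    simp only
    rw [NNReal.smul_def, hqc, smul_eq_mul]
  have hfin : IsFiniteMeasure ν := by
    rw [hν]
    refine isFiniteMeasure_withDensity ?_
    have e : ∀ z, (q z : ℝ≥0∞) = ENNReal.ofReal (ψ z) := fun z => rfl
    simp only [e]
    rw [← ofReal_integral_eq_lintegral_ofReal hI (Eventually.of_forall hψ0)]
    exact ENNReal.ofReal_ne_top
  have htot : ν.real Set.univ = ∫ z : ℍ, ψ z := by
    have h1 := hint fun _ => 1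
    simp only [integral_const, smul_eq_mul, mul_one] at h1
    exact h1
  rcases (integral_nonneg hψ0 : 0 ≤ ∫ z : ℍ, ψ z).eq_or_lt with hZ | hZ
  · rw [← hZ, mul_zero]
    obtain ⟨M, hM⟩ := hb
    have h0 : ∀ i, ∫ z : ℍ, ψ z * g (f i z) = 0 := by
      intro i
      rw [← norm_le_zero_iff]
      refine (norm_integral_le_of_norm_le (hI.mul_const M) (Eventually.of_forall fun z => ?_)).trans (le_of_eq ?_)
      · rw [norm_mul, Real.norm_eq_abs, Real.norm_eq_abs, abs_of_nonneg (hψ0 z)]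
        exact mul_le_mul_of_nonneg_left (hM _) (hψ0 z)
      · rw [integral_mul_const, ← hZ, zero_mul]
    simp only [h0]
    exact tendsto_const_nhds
  · have hm : Pool.Agent.U766.SN.GM.Hm ν (fun i z => f i z) (∫ z : ℍ, ψ z) :=
      ⟨hfin, htot, fun i => (cont (hf i)).measurable, fun i k =>
        hint' _ ((hψ.mul ((cont (hf i)).pow k)).integrable_of_hasCompactSupport hψc.mul_right), fun k => by
        have h1 := h k ψ hψ hψc
        simp only [hint]
        rw [← Pool.Agent.U766.SN.GM.mom k, mul_comm]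
        exact h1⟩
    have h1 := Pool.Agent.U766.SN.GM.weak hm hZ g hg hb
    simp only [hint] at h1
    rw [mul_comm] at h1
    exact h1

/-- part (5) -/
theorem five' (t : ℕ → ℝ) (f : ℕ → ℂ → ℝ) (hf : ∀ i, HeckeMaass (t i) (f i)) (z₀ : ℍ) (r : ℝ)
    (hr : Big z₀ r) : GaussianMoments f ↔
      WeakLaw f ∧ ∀ n : ℕ, ∃ A : ℝ, ∀ i, ∫ z in Metric.ball z₀ r, |f i (z : ℍ)| ^ (n : ℝ) ≤ A := by
  refine ⟨fun h => ⟨fun ψ hψ hψc g hg hb => ?_, fun n => ?_⟩, fun h n ψ hψ hψc =>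
    five t f hf z₀ r hr h.1 h.2 n ψ hψ hψc⟩
  · -- positive and negative parts
    have c1 : Continuous fun z => max (ψ z) 0 := hψ.max continuous_const
    have c2 : Continuous fun z => max (-ψ z) 0 := hψ.neg.max continuous_const
    have s1 : HasCompactSupport fun z => max (ψ z) 0 := hψc.comp_left (g := fun x => max x 0) (by simp)
    have s2 : HasCompactSupport fun z => max (-ψ z) 0 := hψc.comp_left (g := fun x => max (-x) 0) (by simp)
    have w1 := weak_nonneg hf h _ c1 s1 (fun z => le_max_right _ _) g hg hb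
    have w2 := weak_nonneg hf h _ c2 s2 (fun z => le_max_right _ _) g hg hb
    have e : ∀ x : ℝ, x = max x 0 - max (-x) 0 := fun x => by
      rcases le_total 0 x with hx | hx
      · rw [max_eq_left hx, max_eq_right (by linarith), sub_zero]
      · rw [max_eq_right hx, max_eq_left (by linarith)]
        ring
    have w3 := w1.sub w2
    have e1 : ∀ i, (∫ z : ℍ, max (ψ z) 0 * g (f i z)) - ∫ z : ℍ, max (-ψ z) 0 * g (f i z) =
        ∫ z : ℍ, ψ z * g (f i z) := by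
      intro i
      have i1 : Integrable fun z : ℍ => max (ψ z) 0 * g (f i z) :=
        (c1.mul (hg.comp (cont (hf i)))).integrable_of_hasCompactSupport s1.mul_right
      have i2 : Integrable fun z : ℍ => max (-ψ z) 0 * g (f i z) :=
        (c2.mul (hg.comp (cont (hf i)))).integrable_of_hasCompactSupport s2.mul_right
      rw [← integral_sub i1 i2]
      refine integral_congr_ae (Eventually.of_forall fun z => ?_)
      simp only
      rw [← sub_mul, ← e]
    have e2 : (∫ z : ℍ, max (ψ z) 0) - ∫ z : ℍ, max (-ψ z) 0 = ∫ z : ℍ, ψ z := by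
      rw [← integral_sub (c1.integrable_of_hasCompactSupport s1) (c2.integrable_of_hasCompactSupport s2)]
      refine integral_congr_ae (Eventually.of_forall fun z => ?_)
      simp only
      rw [← e]
    rw [← mul_sub, e2] at w3
    exact w3.congr e1
  · obtain ⟨ψ, hψ1, -, hψc, hψ0⟩ := exists_continuous_one_zero_of_isCompact (isCompact_closedBall z₀ r)
      (isClosed_empty (X := ℍ)) (Set.disjoint_empty _)
    have h1 := h (2 * n) ψ ψ.continuous hψc
    obtain ⟨A, hA⟩ := h1.bddAbove_range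
    have hA' : ∀ i, ∫ z : ℍ, ψ z * f i z ^ (2 * n) ≤ A := fun i => hA ⟨i, rfl⟩
    refine ⟨(∫ z in Metric.ball z₀ r, (1 : ℝ)) + A, fun i => ?_⟩
    have e1 : Even (2 * n) := even_two_mul n
    have c3 : Continuous fun z : ℍ => f i z ^ (2 * n) := (cont (hf i)).pow _
    have hI : Integrable fun z : ℍ => ψ z * f i z ^ (2 * n) :=
      (ψ.continuous.mul c3).integrable_of_hasCompactSupport hψc.mul_right
    have h2 : ∫ z in Metric.ball z₀ r, f i (z : ℍ) ^ (2 * n) ≤ A := by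
      refine le_trans ?_ (hA' i)
      calc ∫ z in Metric.ball z₀ r, f i (z : ℍ) ^ (2 * n) = ∫ z in Metric.ball z₀ r, ψ z * f i (z : ℍ) ^ (2 * n) := by
            refine setIntegral_congr_fun Metric.isOpen_ball.measurableSet fun z hz => ?_
            rw [hψ1 (Metric.ball_subset_closedBall hz)]
            simp
        _ ≤ ∫ z : ℍ, ψ z * f i (z : ℍ) ^ (2 * n) :=
            setIntegral_le_integral hI (Eventually.of_forall fun z => mul_nonneg (hψ0 z).1 (e1.pow_nonneg _))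
    have hk : Continuous fun z : ℍ => |f i z| ^ n := (cont (hf i)).abs.pow _
    simp only [Real.rpow_natCast]
    calc ∫ z in Metric.ball z₀ r, |f i (z : ℍ)| ^ n
        ≤ ∫ z in Metric.ball z₀ r, ((1 : ℝ) + f i (z : ℍ) ^ (2 * n)) := by
          refine setIntegral_mono_on (int_ball hk z₀ r) ((int_ball continuous_const z₀ r).add (int_ball c3 z₀ r))
            Metric.isOpen_ball.measurableSet fun z _ => ?_
          have e2 : f i z ^ (2 * n) = (|f i z| ^ n) ^ 2 := by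
            rw [← pow_mul, mul_comm n 2, e1.pow_abs]
          rw [e2]
          nlinarith [sq_nonneg (|f i z| ^ n - 1)]
      _ = (∫ z in Metric.ball z₀ r, (1 : ℝ)) + ∫ z in Metric.ball z₀ r, f i (z : ℍ) ^ (2 * n) :=
          integral_add (int_ball continuous_const z₀ r) (int_ball c3 z₀ r)
      _ ≤ _ := by linarith

/-- every disc of radius greater than `1 / √3` -/
theorem big_disc (z₀ : ℍ) (r : ℝ) (hr : 1 / √3 < r) : Big z₀ r := by
  obtain ⟨g, hg⟩ := ModularGroup.exists_smul_mem_fd z₀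
  refine ⟨g, ?_⟩
  have h1 := ModularGroup.three_le_four_mul_im_sq_of_mem_fd hg
  have hy := (g • z₀).im_pos
  have h3 : (0 : ℝ) < √3 := by positivity
  have h4 : √3 ≤ 2 * (g • z₀).im := by
    rw [Real.sqrt_le_left (by positivity)]
    nlinarith
  have h5 : 1 < r * √3 := by rwa [div_lt_iff₀ h3] at hr
  have hr0 : 0 < r := lt_trans (by positivity) hr
  nlinarith

/-- part (3) -/
theorem three {ι : Type} (t : ι → ℝ) (f : ι → ℂ → ℝ) (hf : ∀ i, HeckeMaass (t i) (f i)) (z₀ : ℍ) (r : ℝ)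
    (hr : Big z₀ r) (p : ℝ) (hp : 0 < p) :
    (∀ Ω : Set ℍ, IsCompact Ω → ∃ A : ℝ, ∀ i, ∫ z in Ω, |f i (z : ℍ)| ^ p ≤ A) ↔
      ∃ A : ℝ, ∀ i, ∫ z in Metric.ball z₀ r, |f i (z : ℍ)| ^ p ≤ A := by
  refine ⟨fun h => ?_, fun ⟨A, hA⟩ Ω hΩ => ?_⟩
  · obtain ⟨A, hA⟩ := h _ (isCompact_closedBall z₀ r)
    refine ⟨A, fun i => le_trans ?_ (hA i)⟩
    exact setIntegral_mono_set (int_compact (cont_pow (hf i) hp) (isCompact_closedBall z₀ r))
      (Eventually.of_forall fun z => by positivity)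
      (Eventually.of_forall fun z hz => Metric.ball_subset_closedBall hz)
  · obtain ⟨C, hC, h⟩ := two z₀ r hr Ω hΩ p hp
    exact ⟨C * A, fun i => (h (t i) (f i) (hf i)).trans (mul_le_mul_of_nonneg_left (hA i) hC.le)⟩

/-- part (6) -/
theorem six (z₀ : ℍ) (r : ℝ) (hr : Big z₀ r) :
    (∀ (t : ℕ → ℝ) (f : ℕ → ℂ → ℝ), (∀ i, HeckeMaass (t i) (f i)) → Tendsto t atTop atTop → GaussianMoments f) ↔
      (∀ (t : ℕ → ℝ) (f : ℕ → ℂ → ℝ), (∀ i, HeckeMaass (t i) (f i)) → Tendsto t atTop atTop → WeakLaw f) ∧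
      ∀ n : ℕ, ∃ A t₀ : ℝ, ∀ (t : ℝ) (f : ℂ → ℝ), t₀ ≤ t → HeckeMaass t f →
        ∫ z in Metric.ball z₀ r, |f (z : ℍ)| ^ (n : ℝ) ≤ A := by
  refine ⟨fun h => ⟨fun t f hf ht => ((five' t f hf z₀ r hr).1 (h t f hf ht)).1, fun n => ?_⟩, fun h t f hf ht => ?_⟩
  · by_contra hcon
    push Not at hcon
    choose t f ht hf hA using fun k : ℕ => hcon k k
    have htt : Tendsto t atTop atTop := tendsto_atTop_mono ht tendsto_natCast_atTop_atTop
    obtain ⟨A, hA'⟩ := ((five' t f hf z₀ r hr).1 (h t f hf htt)).2 n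
    obtain ⟨k, hk⟩ := exists_nat_ge A
    exact absurd (hA' k) (not_le.2 (hk.trans_lt (hA k)))
  · refine (five' t f hf z₀ r hr).2 ⟨h.1 t f hf ht, fun n => ?_⟩
    obtain ⟨A, t₀, hA⟩ := h.2 n
    have hev : ∀ᶠ i in atTop, ∫ z in Metric.ball z₀ r, |f i (z : ℍ)| ^ (n : ℝ) ≤ A := by
      filter_upwards [ht.eventually_ge_atTop t₀] with i hi
      exact hA (t i) (f i) hi (hf i)
    have hb : BddAbove (Set.range fun i => ∫ z in Metric.ball z₀ r, |f i (z : ℍ)| ^ (n : ℝ)) :=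
      Filter.IsBoundedUnder.bddAbove_range ⟨A, by rw [eventually_map]; exact hev⟩
    obtain ⟨A', hA'⟩ := hb
    exact ⟨A', fun i => hA' ⟨i, rfl⟩⟩

/-- **Main result.** `Big z₀ r` holds for all `z₀` if `r > 1 / √3`. Let `Big z₀ r`, and let `D` be the
hyperbolic disc with centre `z₀` and radius `r`.
(1) For compact `Ω` there are `C`, `M` such that `∫_Ω φ(|f|) dμ ≤ M ∫_D φ(C |f|) dμ` for all real
normalised Hecke-Maass cusp forms `f` and all nondecreasing `φ : ℝ → [0, ∞]` with `φ(0) = 0`.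
(2) For compact `Ω` and `p > 0` there is `C` such that `∫_Ω |f|^p dμ ≤ C ∫_D |f|^p dμ` for all these `f`.
(3) The `p`-th moments of a family of such forms are bounded on all compact sets if and only if they are
bounded on `D`.
(4) Let `n > 0` be even, `ψ ≥ 0` continuous of compact support with `ψ ≥ 1` on `D`, and let
`∫ ψ f_i^n dμ` be bounded above. Then the `n`-th moments on every compact set are bounded, and for
`0 < q < n` the functions `|f_i|^q` are uniformly integrable on every compact set.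
(5) For every sequence of such forms: `∫ ψ f_i^n dμ → C_n ∫ ψ dμ` for all `n` and all `ψ ∈ C_c(ℍ)` if and
only if the weak random wave law `∫ ψ g(f_i) dμ → E g ∫ ψ dμ` (`g` bounded and continuous) holds and all
the moments on `D` are bounded.
(6) So Q1 (all sequences with `t_i → ∞`) is equivalent to the weak law for all such sequences together
with the boundedness of `∫_D |f|^n dμ` for all forms with large `t`, for each `n`, for one disc `D`. -/
theorem result :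
    (∀ (z₀ : ℍ) (r : ℝ), 1 / √3 < r → Big z₀ r) ∧
    ∀ (z₀ : ℍ) (r : ℝ), Big z₀ r →
      (∀ Ω : Set ℍ, IsCompact Ω → ∃ C : ℝ, 0 < C ∧ ∃ M : ℕ, ∀ (t : ℝ) (f : ℂ → ℝ), HeckeMaass t f →
        ∀ φ : ℝ → ℝ≥0∞, Monotone φ → φ 0 = 0 →
          ∫⁻ z in Ω, φ |f (z : ℍ)| ≤ M * ∫⁻ z in Metric.ball z₀ r, φ (C * |f (z : ℍ)|)) ∧
      (∀ Ω : Set ℍ, IsCompact Ω → ∀ p : ℝ, 0 < p → ∃ C : ℝ, 0 < C ∧ ∀ (t : ℝ) (f : ℂ → ℝ), HeckeMaass t f →
        ∫ z in Ω, |f (z : ℍ)| ^ p ≤ C * ∫ z in Metric.ball z₀ r, |f (z : ℍ)| ^ p) ∧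
      (∀ {ι : Type} (t : ι → ℝ) (f : ι → ℂ → ℝ), (∀ i, HeckeMaass (t i) (f i)) → ∀ p : ℝ, 0 < p →
        ((∀ Ω : Set ℍ, IsCompact Ω → ∃ A : ℝ, ∀ i, ∫ z in Ω, |f i (z : ℍ)| ^ p ≤ A) ↔
          ∃ A : ℝ, ∀ i, ∫ z in Metric.ball z₀ r, |f i (z : ℍ)| ^ p ≤ A)) ∧
      (∀ {ι : Type} (t : ι → ℝ) (f : ι → ℂ → ℝ), (∀ i, HeckeMaass (t i) (f i)) → ∀ n : ℕ, Even n → 0 < n →
        ∀ ψ : ℍ → ℝ, Continuous ψ → HasCompactSupport ψ → (∀ z, 0 ≤ ψ z) → (∀ z, dist z z₀ < r → 1 ≤ ψ z) →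
        (∃ A : ℝ, ∀ i, ∫ z : ℍ, ψ z * f i z ^ n ≤ A) → ∀ Ω : Set ℍ, IsCompact Ω →
        (∃ A : ℝ, ∀ i, ∫ z in Ω, |f i (z : ℍ)| ^ (n : ℝ) ≤ A) ∧
        ∀ q : ℝ, 0 < q → q < n → ∀ ε : ℝ, 0 < ε → ∃ B : ℝ, ∀ i,
          ∫ z in Ω ∩ {z : ℍ | B < |f i z|}, |f i (z : ℍ)| ^ q ≤ ε) ∧
      (∀ (t : ℕ → ℝ) (f : ℕ → ℂ → ℝ), (∀ i, HeckeMaass (t i) (f i)) → (GaussianMoments f ↔
        WeakLaw f ∧ ∀ n : ℕ, ∃ A : ℝ, ∀ i, ∫ z in Metric.ball z₀ r, |f i (z : ℍ)| ^ (n : ℝ) ≤ A)) ∧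
      ((∀ (t : ℕ → ℝ) (f : ℕ → ℂ → ℝ), (∀ i, HeckeMaass (t i) (f i)) → Tendsto t atTop atTop → GaussianMoments f) ↔
        (∀ (t : ℕ → ℝ) (f : ℕ → ℂ → ℝ), (∀ i, HeckeMaass (t i) (f i)) → Tendsto t atTop atTop → WeakLaw f) ∧
        ∀ n : ℕ, ∃ A t₀ : ℝ, ∀ (t : ℝ) (f : ℂ → ℝ), t₀ ≤ t → HeckeMaass t f →
          ∫ z in Metric.ball z₀ r, |f (z : ℍ)| ^ (n : ℝ) ≤ A) :=
  ⟨big_disc, fun z₀ r hr => ⟨one z₀ r hr, two z₀ r hr, fun t f hf p hp => three t f hf z₀ r hr p hp,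
    fun t f hf n hn hn0 ψ hψ hψc hψ0 hψ1 hb Ω hΩ => four t f hf z₀ r hr n hn hn0 ψ hψ hψc hψ0 hψ1 hb Ω hΩ,
    fun t f hf => five' t f hf z₀ r hr, six z₀ r hr⟩⟩

end Pool.Agent.Results.MP_a54f13_nt.MomentsAreLocal
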