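import Mathlib
import Pool.Agent.U766.SN.Int
import Pool.Agent.U766.SN.GM
import Pool.Agent.N889.SN.Fin
import Pool.Agent.U14.MV.Loc

set_option autoImplicit false

/-!
# MP_a54f13_nt: the sup norm on compact sets and the moment of order `log t` on one small disc

`HeckeMaass t f`: `f` is a real Hecke-Maass cusp form for the full modular group with spectral parameter
`t`, normalised by `(3 / π) ∫ f² dμ = 1` over the fundamental domain. On the upper half-plane `ℍ` all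
integrals are with respect to `dμ = dx dy / y²` (the measure `volume` of Mathlib). `Big z₀ r`: some
modular translate of `z₀` has height greater than `1 / (2 r)`; this holds for all `z₀` if `r > 1 / √3`,
and for arbitrarily small `r` if `z₀` is high in the cusp. Let `D` be the disc with centre `z₀` and radius `r`.

(1) For compact `Ω` there is `K` with `|f z|^p ≤ K^p t² ∫_D |f|^p dμ` for all `z ∈ Ω`, all forms with `t ≥ 1`
and all `p ≥ 2`; it is essential that `K` does not depend on `p`.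
(2) So the sup norms on compact sets are comparable with one norm on `D`, that of `L^(log t)`: for any
family of forms and any function `G` the bounds `|f| ≤ C G(t)` on all compact sets are equivalent to one
moment bound, `∫_D |f|^(log t) dμ ≤ (C G(t))^(log t)`.
(3) The bounds `|f| ≤ C √(log t)` on all compact sets (the size predicted by the random wave model) are
equivalent to a moment of order `log t` on `D` of Gaussian size, and to a polynomial bound for the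
exponential moment `∫_D exp (c f²) dμ`.
(4), (5) If for one even `n` and one test function `ψ ≥ 1` on `D` the integrals `∫ ψ f_i^n dμ` are bounded
above, then `|f_i| ≤ C t_i^(2/n)` on all compact sets. The assertion of Q1 for one even `n` implies
these bounds for all forms with large `t` (for `n = 10` the exponent is `1/5`, smaller than the exponent
`5/24` of Iwaniec and Sarnak), and (6) Q1 the bounds `t^ε`. In other words: large values anywhere disprove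
Q1 on every disc `D`; if for a sequence of forms the quotient of the maximum of `|f_i|` over a compact set
and of `t_i^(2/n)` is unbounded then the moments `∫_D f_i^n dμ` are unbounded for all `D` as above.

Proof. Mean value inequality for `|f|²` on discs of radius comparable to `1 / t` (`Pool.Agent.U14.MV`), the
convexity of `x^(p/2)`, and the control of the values on a compact set by those on `D` for Hecke-Maass
forms (`Pool.Agent.U766.SN.disc2`, from `MomentsAreLocal` by helper766; it uses the Hecke operators at the primes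
`2`, `3` and a bound for their eigenvalues).
-/

namespace Pool.Agent.Results.MP_a54f13_nt.SupNormFromOneMoment

open MeasureTheory UpperHalfPlane Filter Topology Complex
open scoped ContDiff ENNReal MatrixGroups Modular
open Pool.Agent.U766.SN (Good)

/-- real-valued Hecke-Maass cusp forms for `SL_2(ℤ)` with spectral parameter `t`, normalised -/
structure HeckeMaass (t : ℝ) (f : ℂ → ℝ) : Prop where
  pos : 0 < t
  smooth : ContDiffOn ℝ ∞ f {z : ℂ | 0 < z.im}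
  inv : ∀ z : ℂ, 0 < z.im → f (z + 1) = f z ∧ f (-z⁻¹) = f z
  eigen : ∀ z : ℂ, 0 < z.im →
    -z.im ^ 2 * (deriv (deriv (fun s : ℝ => f (z + (s : ℂ)))) 0 +
      deriv (deriv (fun s : ℝ => f (z + (s : ℂ) * Complex.I))) 0) = (1 / 4 + t ^ 2) * f z
  cusp : ∀ y : ℝ, 0 < y → ∫ x in (0 : ℝ)..1, f ((x : ℂ) + (y : ℂ) * Complex.I) = 0
  norm : 3 / Real.pi * ∫ z in {z : ℂ | 0 < z.im ∧ |z.re| ≤ 1 / 2 ∧ 1 ≤ ‖z‖}, f z ^ 2 / z.im ^ 2 = 1
  hecke : ∀ n : ℕ, 1 ≤ n → ∃ c : ℝ, ∀ z : ℂ, 0 < z.im →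
    ∑ d ∈ n.divisors, ∑ b ∈ Finset.range d, f ((((n / d : ℕ) : ℂ) * z + (b : ℂ)) / (d : ℂ)) = c * f z

/-- some modular translate of `z₀` has height greater than `1 / (2 r)` -/
def Big (z₀ : ℍ) (r : ℝ) : Prop := ∃ g : SL(2, ℤ), 1 < 2 * r * (g • z₀).im

lemma cont {t : ℝ} {f : ℂ → ℝ} (hf : HeckeMaass t f) : Continuous fun z : ℍ => f z :=
  hf.smooth.continuousOn.comp_continuous UpperHalfPlane.continuous_coe fun z => z.im_pos

lemma good {t : ℝ} {f : ℂ → ℝ} (hf : HeckeMaass t f) : Good Pool.Agent.N889.SN.KK (fun z => (f z : ℂ)) := by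
  have hinv : ∀ z : ℂ, 0 < z.im → ((f (z + 1) : ℝ) : ℂ) = (f z : ℂ) ∧ ((f (-z⁻¹) : ℝ) : ℂ) = (f z : ℂ) :=
    fun z hz => by rw [(hf.inv z hz).1, (hf.inv z hz).2]; exact ⟨rfl, rfl⟩
  refine ⟨⟨fun z hz => (hinv z hz).1, fun p hp => ?_⟩, fun z hz => (hinv z hz).2⟩
  obtain ⟨c, hc⟩ := hf.hecke p hp.one_le
  have hc' : ∀ z : ℂ, 0 < z.im → (f (p * z) : ℂ) + ∑ b ∈ Finset.range p, (f ((z + b) / p) : ℂ) = (c : ℂ) * f z := by
    intro z hz
    have h1 := hc z hz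
    rw [hp.divisors, Finset.sum_pair hp.one_lt.ne] at h1
    have h2 : f (p * z) + ∑ b ∈ Finset.range p, f ((z + b) / p) = c * f z := by
      rw [← h1]
      simp [Nat.div_self hp.pos]
    exact_mod_cast h2
  refine ⟨c, ?_, hc'⟩
  have hm : Measurable (fun z : ℍ => ENNReal.ofReal (‖(f z : ℂ)‖ ^ 2)) := by
    refine (ENNReal.continuous_ofReal.comp (Continuous.pow ?_ 2)).measurable
    exact (Complex.continuous_ofReal.comp (cont hf)).norm
  have hint : ∫ z in {z : ℂ | 0 < z.im ∧ |z.re| ≤ 1 / 2 ∧ 1 ≤ ‖z‖}, ‖(f z : ℂ)‖ ^ 2 / z.im ^ 2 = Real.pi / 3 := by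
    have h1 := hf.norm
    have hpi := Real.pi_pos
    have h2 : ∀ z : ℂ, ‖(f z : ℂ)‖ ^ 2 / z.im ^ 2 = f z ^ 2 / z.im ^ 2 := fun z => by
      rw [Complex.norm_real, Real.norm_eq_abs, sq_abs]
    simp only [h2]
    generalize (∫ z in {z : ℂ | 0 < z.im ∧ |z.re| ≤ 1 / 2 ∧ 1 ≤ ‖z‖}, f z ^ 2 / z.im ^ 2) = I at h1 ⊢
    rw [div_mul_eq_mul_div, div_eq_one_iff_eq hpi.ne'] at h1
    linarith
  have h1 : ∫⁻ z in 𝒟, ENNReal.ofReal (‖(f (z : ℍ) : ℂ)‖ ^ 2) = ENNReal.ofReal (Real.pi / 3) := by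
    rw [Pool.Agent.N889.SN.lint_eq (fun z => ENNReal.ofReal (‖(f z : ℂ)‖ ^ 2 / z.im ^ 2)) _ hm]
    · have hi : Integrable (fun z : ℂ => ‖(f z : ℂ)‖ ^ 2 / z.im ^ 2)
          (volume.restrict {z : ℂ | 0 < z.im ∧ |z.re| ≤ 1 / 2 ∧ 1 ≤ ‖z‖}) := by
        by_contra hni
        rw [integral_undef hni] at hint
        have := Real.pi_pos
        linarith
      rw [← ofReal_integral_eq_lintegral_ofReal hi (Filter.Eventually.of_forall fun z => by positivity), hint]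
    · intro z
      have hz := z.im_pos
      have e : (((1 / NNReal.mk z.im z.im_pos.le : NNReal) ^ 2 : NNReal) : ℝ≥0∞) = ENNReal.ofReal ((1 / z.im) ^ 2) := by
        rw [ENNReal.ofReal, ENNReal.coe_inj]
        ext
        rw [Real.coe_toNNReal _ (by positivity)]
        simp
      rw [e, ← ENNReal.ofReal_mul (by positivity)]
      congr 1
      rw [UpperHalfPlane.coe_im]
      field_simp
  have e : Pool.Agent.N889.SN.KK p = (Pool.Agent.N889.SN.eig p hp).choose := by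
    unfold Pool.Agent.N889.SN.KK
    rw [dif_pos hp]
  have hpi := Real.pi_pos
  rw [e]
  exact (Pool.Agent.N889.SN.eig p hp).choose_spec.2 (fun z => (f z : ℂ)) hm
    (fun g z => Pool.Agent.Results.MP_8fded1_nt.EllipticPointIsHarmless.invariance (U := fun z => (f z : ℂ)) hinv g z)
    (by rw [h1]; simp; positivity) (by rw [h1]; exact ENNReal.ofReal_ne_top) c hc'

lemma isCompact_coe {Ω : Set ℍ} (hΩ : IsCompact Ω) : IsCompact ((fun z : ℍ => (z : ℂ)) '' Ω) :=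
  hΩ.image UpperHalfPlane.continuous_coe

lemma coe_sub (Ω : Set ℍ) : (fun z : ℍ => (z : ℂ)) '' Ω ⊆ {z : ℂ | 0 < z.im} := by
  rintro _ ⟨z, -, rfl⟩
  exact z.im_pos

lemma cont_pow {t : ℝ} {f : ℂ → ℝ} (hf : HeckeMaass t f) {p : ℝ} (hp : 0 < p) :
    Continuous fun z : ℍ => |f z| ^ p :=
  (cont hf).abs.rpow_const fun _ => Or.inr hp.le

lemma int_compact {g : ℍ → ℝ} (hg : Continuous g) {Ω : Set ℍ} (hΩ : IsCompact Ω) : IntegrableOn g Ω :=
  hg.continuousOn.integrableOn_compact hΩ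

lemma int_ball {g : ℍ → ℝ} (hg : Continuous g) (z₀ : ℍ) (r : ℝ) : IntegrableOn g (Metric.ball z₀ r) :=
  (int_compact hg (isCompact_closedBall z₀ r)).mono_set Metric.ball_subset_closedBall

/-- every disc of radius greater than `1 / √3` -/
theorem big_disc (z₀ : ℍ) (r : ℝ) (hr : 1 / √3 < r) : Big z₀ r := by
  obtain ⟨g, hg⟩ := ModularGroup.exists_smul_mem_fd z₀
  refine ⟨g, ?_⟩
  have h1 := ModularGroup.three_le_four_mul_im_sq_of_mem_fd hg
  have hy := (g • z₀).im_pos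
  have h3 : (0 : ℝ) < √3 := by positivity
  have h4 : √3 ≤ 2 * (g • z₀).im := by
    rw [Real.sqrt_le_left (by positivity)]
    nlinarith
  have h5 : 1 < r * √3 := by rwa [div_lt_iff₀ h3] at hr
  have hr0 : 0 < r := lt_trans (by positivity) hr
  nlinarith


/-- integrals over discs of the plane contained in hyperbolic discs -/
lemma to_hyp {F : ℂ → ℝ} (hF : ContinuousOn F {z : ℂ | 0 < z.im}) (hF0 : ∀ z, 0 ≤ F z) (w : ℍ) {ρ δ : ℝ}
    (hρ1 : ρ ≤ w.im / 4) (hρ2 : ρ ≤ δ / 4 * w.im) (hδ : 0 < δ) :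
    ∫ z in Metric.ball (w : ℂ) ρ, F z ≤ (2 * w.im) ^ 2 * ∫ z in Metric.ball w δ, F (z : ℍ) := by
  have hy := w.im_pos
  set S : Set ℍ := UpperHalfPlane.coe ⁻¹' Metric.ball (w : ℂ) ρ with hS
  have hSm : MeasurableSet S := measurable_coe Metric.isOpen_ball.measurableSet
  have him : ∀ z : ℂ, z ∈ Metric.ball (w : ℂ) ρ → |z.im - w.im| < ρ := by
    intro z hz
    have h1 := Complex.abs_im_le_norm (z - w)
    rw [Complex.sub_im, UpperHalfPlane.coe_im] at h1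
    rw [mem_ball_iff_norm] at hz
    exact h1.trans_lt hz
  have hcoe : UpperHalfPlane.coe '' S = Metric.ball (w : ℂ) ρ := by
    rw [hS, Set.image_preimage_eq_inter_range, Set.inter_eq_left]
    intro z hz
    have h1 := (abs_lt.1 (him z hz)).1
    exact ⟨⟨z, by linarith⟩, rfl⟩
  have hsub : S ⊆ Metric.ball w δ := by
    intro z hz
    have hz' : (z : ℂ) ∈ Metric.ball (w : ℂ) ρ := hz
    have h1 := (abs_lt.1 (him z hz')).1
    rw [UpperHalfPlane.coe_im] at h1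
    have h2 : 3 / 4 * w.im < z.im := by linarith
    have h3 : w.im / 2 ≤ √(z.im * w.im) := by
      refine Real.le_sqrt_of_sq_le ?_
      nlinarith
    have h4 : dist (z : ℂ) w < ρ := hz'
    rw [Metric.mem_ball]
    calc dist z w ≤ dist (z : ℂ) w / √(z.im * w.im) := dist_le_dist_coe_div_sqrt z w
      _ ≤ dist (z : ℂ) w / (w.im / 2) := by gcongr
      _ ≤ ρ / (w.im / 2) := by gcongr
      _ ≤ (δ / 4 * w.im) / (w.im / 2) := by gcongr
      _ = δ / 2 := by field_simp; ring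
      _ < δ := by linarith
  have hFc : Continuous fun z : ℍ => F z :=
    hF.comp_continuous UpperHalfPlane.continuous_coe fun z => z.im_pos
  have hI1 : IntegrableOn (fun z : ℍ => F z) (Metric.ball w δ) :=
    (hFc.continuousOn.integrableOn_compact (isCompact_closedBall w δ)).mono_set Metric.ball_subset_closedBall
  have hI2 : IntegrableOn F (Metric.ball (w : ℂ) ρ) := by
    refine (ContinuousOn.integrableOn_compact (isCompact_closedBall (w : ℂ) ρ) (hF.mono ?_)).mono_set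
      Metric.ball_subset_closedBall
    intro z hz
    have h1 := Complex.abs_im_le_norm (z - w)
    rw [Complex.sub_im, UpperHalfPlane.coe_im] at h1
    rw [Metric.mem_closedBall, dist_eq_norm] at hz
    have := (abs_le.1 (h1.trans hz)).1
    show 0 < z.im
    linarith
  have hm : Measurable fun z : ℍ => (((1 / NNReal.mk z.im z.im_pos.le : NNReal) ^ 2 : NNReal) : ℝ≥0∞) := by
    refine Measurable.coe_nnreal_ennreal (Continuous.measurable ?_)
    refine .pow (.div₀ continuous_const ?_ ?_) _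
    · exact UpperHalfPlane.continuous_im.subtype_mk _
    · exact fun x ↦ NNReal.ne_iff.mp x.im_ne_zero
  have hmp : MeasurePreserving UpperHalfPlane.coe (volume.comap UpperHalfPlane.coe)
      (volume.restrict (.range UpperHalfPlane.coe)) :=
    ⟨measurable_coe, by rw [measurableEmbedding_coe.map_comap]⟩
  have hφ : Measurable fun z : ℍ => ENNReal.ofReal (F z) := hFc.measurable.ennreal_ofReal
  have key : ∫⁻ z in Metric.ball (w : ℂ) ρ, ENNReal.ofReal (F z) ≤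
      ENNReal.ofReal ((2 * w.im) ^ 2) * ∫⁻ z in S, ENNReal.ofReal (F (z : ℍ)) := by
    rw [volume_def, setLIntegral_withDensity_eq_setLIntegral_mul _ hm hφ hSm,
      ← lintegral_const_mul _ (hm.mul hφ), ← hcoe,
      ← Set.inter_eq_self_of_subset_left (Set.image_subset_range UpperHalfPlane.coe S),
      ← Measure.restrict_restrict' measurableEmbedding_coe.measurableSet_range,
      ← hmp.setLIntegral_comp_emb measurableEmbedding_coe]
    refine setLIntegral_mono' hSm fun z hz => ?_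
    have h1 := (abs_lt.1 (him z hz)).2
    rw [UpperHalfPlane.coe_im] at h1
    have hz0 := z.im_pos
    have e : (((1 / NNReal.mk z.im z.im_pos.le : NNReal) ^ 2 : NNReal) : ℝ≥0∞) = ENNReal.ofReal ((1 / z.im) ^ 2) := by
      rw [ENNReal.ofReal, ENNReal.coe_inj]
      ext
      rw [Real.coe_toNNReal _ (by positivity)]
      simp
    simp only [Pi.mul_apply]
    rw [e, ← ENNReal.ofReal_mul (by positivity), ← ENNReal.ofReal_mul (by positivity)]
    refine ENNReal.ofReal_le_ofReal ?_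
    have h2 : 1 ≤ (2 * w.im) ^ 2 * (1 / z.im) ^ 2 := by
      rw [← mul_pow]
      refine one_le_pow₀ ?_
      rw [mul_one_div, le_div_iff₀ hz0]
      linarith
    nlinarith [hF0 z]
  have h1 : ∫⁻ z in Metric.ball (w : ℂ) ρ, ENNReal.ofReal (F z) ≤
      ENNReal.ofReal ((2 * w.im) ^ 2) * ∫⁻ z in Metric.ball w δ, ENNReal.ofReal (F (z : ℍ)) :=
    key.trans (mul_le_mul_right (lintegral_mono_set hsub) _)
  rw [← ofReal_integral_eq_lintegral_ofReal hI2 (Eventually.of_forall fun z => hF0 z),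
    ← ofReal_integral_eq_lintegral_ofReal hI1 (Eventually.of_forall fun z => hF0 z),
    ← ENNReal.ofReal_mul (by positivity), ENNReal.ofReal_le_ofReal_iff] at h1
  · exact h1
  · have : 0 ≤ ∫ z in Metric.ball w δ, F (z : ℍ) := integral_nonneg fun z => hF0 z
    positivity

lemma scale {F : ℂ → ℝ} (w : ℂ) {ρ : ℝ} (hρ : 0 < ρ) :
    ∫ ξ in Metric.ball (0 : ℂ) 1, F (w + ρ * ξ) = (ρ ^ 2)⁻¹ * ∫ z in Metric.ball w ρ, F z := by
  rw [← integral_indicator Metric.isOpen_ball.measurableSet, ← integral_indicator Metric.isOpen_ball.measurableSet]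
  have e1 : ∀ ξ : ℂ, (Metric.ball (0 : ℂ) 1).indicator (fun ξ => F (w + ρ * ξ)) ξ =
      (Metric.ball w ρ).indicator F (w + ρ • ξ) := by
    intro ξ
    have h1 : ξ ∈ Metric.ball (0 : ℂ) 1 ↔ w + ρ • ξ ∈ Metric.ball w ρ := by
      rw [mem_ball_zero_iff, mem_ball_iff_norm, add_sub_cancel_left, norm_smul, Real.norm_of_nonneg hρ.le]
      constructor
      · intro h
        nlinarith
      · intro h
        by_contra h2
        push Not at h2
        nlinarith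
    by_cases h : ξ ∈ Metric.ball (0 : ℂ) 1
    · rw [Set.indicator_of_mem h, Set.indicator_of_mem (h1.1 h), Complex.real_smul]
    · rw [Set.indicator_of_notMem h, Set.indicator_of_notMem (fun h3 => h (h1.2 h3))]
  simp only [e1]
  have h2 := Measure.integral_comp_smul (volume : Measure ℂ) (fun z => (Metric.ball w ρ).indicator F (w + z)) ρ
  rw [h2, Complex.finrank_real_complex, abs_of_pos (by positivity), smul_eq_mul,
    integral_add_left_eq_self (fun z => (Metric.ball w ρ).indicator F z) w]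

/-- the local bound, for solutions of the equation, with an explicit constant -/
theorem local_gen (p : ℝ) (hp : 2 ≤ p) (δ : ℝ) (hδ : 0 < δ) (U : ℂ → ℂ) (T : ℝ) (hT : 1 ≤ T)
    (hU1 : ContDiffOn ℝ 2 U {z : ℂ | 0 < z.im})
    (hU2 : ∀ z : ℂ, 0 < z.im → -((z.im : ℂ)) ^ 2 * (deriv (deriv (fun t : ℝ => U (z + (t : ℂ)))) 0 +
      deriv (deriv (fun t : ℝ => U (z + (t : ℂ) * Complex.I))) 0) = (1 / 4 + (T : ℂ) ^ 2) * U z) (w : ℍ) :
    ‖U w‖ ^ p ≤ Real.exp 1 ^ (p / 2) / Real.pi * (4 / (min (1 / 4) (δ / 4)) ^ 2) * T ^ 2 *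
      ∫ z in Metric.ball w δ, ‖U (z : ℍ)‖ ^ p := by
  set κ : ℝ := min (1 / 4) (δ / 4) with hκ
  have hκ0 : 0 < κ := by rw [hκ]; positivity
  have hκ1 : κ ≤ 1 / 4 := min_le_left _ _
  have hκ2 : κ ≤ δ / 4 := min_le_right _ _
  have hpi := Real.pi_pos
  have hy := w.im_pos
  have hT0 : 0 < T := by linarith
  set ρ : ℝ := κ * w.im / T with hρd
  have hρ : 0 < ρ := by rw [hρd]; positivity
  have hρκ : ρ ≤ κ * w.im := div_le_self (by positivity) hT
  have hρ1 : ρ ≤ w.im / 4 := by nlinarith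
  have hρ2 : ρ ≤ δ / 4 * w.im := by nlinarith
  have hpos : ∀ z : ℂ, ‖z - w‖ ≤ ρ → 3 / 4 * w.im ≤ z.im := by
    intro z hz
    have h1 := Complex.abs_im_le_norm (z - w)
    rw [Complex.sub_im, UpperHalfPlane.coe_im] at h1
    have := (abs_le.1 (h1.trans hz)).1
    linarith
  have h1 := Pool.Agent.U14.MV.loc hU1 (p := (w : ℂ)) w.im_pos (V₀ := (1 / 4 + T ^ 2) / (3 / 4 * w.im) ^ 2) hρ hρ1
    (fun z => (1 / 4 + T ^ 2) / z.im ^ 2) (fun z hz => ⟨by positivity, by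
      have := hpos z hz
      have h0 : 0 < 3 / 4 * w.im := by positivity
      gcongr⟩) (fun z hz => by
      have hz0 : 0 < z.im := lt_of_lt_of_le (by positivity) (hpos z hz)
      have h2 := hU2 z hz0
      have hz1 : (z.im : ℂ) ≠ 0 := by exact_mod_cast hz0.ne'
      set A := deriv (deriv (fun t : ℝ => U (z + (t : ℂ)))) 0 +
        deriv (deriv (fun t : ℝ => U (z + (t : ℂ) * Complex.I))) 0 with hA
      push_cast
      field_simp
      linear_combination -4 * h2)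
  -- the exponential factor
  have h2 : (1 / 4 + T ^ 2) / (3 / 4 * w.im) ^ 2 * ρ ^ 2 / 2 ≤ 1 := by
    have e : (1 / 4 + T ^ 2) / (3 / 4 * w.im) ^ 2 * ρ ^ 2 / 2 = (1 / 4 + T ^ 2) / T ^ 2 * κ ^ 2 * (8 / 9) := by
      rw [hρd]
      field_simp
      ring
    rw [e]
    have h3 : (1 / 4 + T ^ 2) / T ^ 2 ≤ 2 := by
      rw [div_le_iff₀ (by positivity)]
      nlinarith
    have h4 : κ ^ 2 ≤ 1 / 16 := by nlinarith
    have h5 : 0 ≤ κ ^ 2 := by positivity
    nlinarith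
  have hUc : ContinuousOn (fun z : ℂ => ‖U z‖ ^ 2) {z : ℂ | 0 < z.im} := hU1.continuousOn.norm.pow 2
  have hUp : ContinuousOn (fun z : ℂ => ‖U z‖ ^ p) {z : ℂ | 0 < z.im} :=
    hU1.continuousOn.norm.rpow_const fun z _ => Or.inr (by linarith)
  have hmap : ∀ ξ ∈ Metric.closedBall (0 : ℂ) 1, ((w : ℂ) + ρ * ξ) ∈ {z : ℂ | 0 < z.im} := by
    intro ξ hξ
    have h3 : ‖ξ‖ ≤ 1 := by simpa using hξ
    have h4 := hpos ((w : ℂ) + ρ * ξ) (by
      rw [add_sub_cancel_left, norm_mul, Complex.norm_real, Real.norm_of_nonneg hρ.le]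
      nlinarith)
    exact lt_of_lt_of_le (by positivity) h4
  have hcomp : ∀ F : ℂ → ℝ, ContinuousOn F {z : ℂ | 0 < z.im} →
      IntegrableOn (fun ξ : ℂ => F ((w : ℂ) + ρ * ξ)) (Metric.ball (0 : ℂ) 1) := by
    intro F hF
    refine (ContinuousOn.integrableOn_compact (isCompact_closedBall (0 : ℂ) 1) ?_).mono_set
      Metric.ball_subset_closedBall
    exact hF.comp (by fun_prop) hmap
  have hvol : volume.real (Metric.ball (0 : ℂ) 1) = Real.pi := Pool.Agent.R737.HO.volume_real_ball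
  -- Jensen
  have h3 : (⨍ ξ in Metric.ball (0 : ℂ) 1, ‖U ((w : ℂ) + ρ * ξ)‖ ^ 2) ^ (p / 2) ≤
      ⨍ ξ in Metric.ball (0 : ℂ) 1, (‖U ((w : ℂ) + ρ * ξ)‖ ^ 2) ^ (p / 2) := by
    refine (convexOn_rpow (p := p / 2) (by linarith)).map_set_average_le
      (continuousOn_id.rpow_const fun z _ => Or.inr (by linarith)) isClosed_Ici
      (Metric.measure_ball_pos volume (0 : ℂ) one_pos).ne' measure_ball_lt_top.ne
      (Eventually.of_forall fun ξ => Set.mem_Ici.2 (by positivity)) (hcomp _ hUc) ?_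
    exact hcomp (fun z => (‖U z‖ ^ 2) ^ (p / 2)) (hUc.rpow_const fun z _ => Or.inr (by linarith))
  have e3 : ∀ z : ℂ, (‖U z‖ ^ 2) ^ (p / 2) = ‖U z‖ ^ p := by
    intro z
    rw [← Real.rpow_natCast, ← Real.rpow_mul (norm_nonneg _)]
    congr 1
    push_cast
    ring
  simp only [e3] at h3
  rw [setAverage_eq, setAverage_eq, hvol, smul_eq_mul, smul_eq_mul] at h3
  have h4 : ‖U w‖ ^ 2 ≤ Real.exp 1 * (Real.pi⁻¹ * ∫ ξ in Metric.ball (0 : ℂ) 1, ‖U ((w : ℂ) + ρ * ξ)‖ ^ 2) := by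
    have h5 : 0 ≤ ∫ ξ in Metric.ball (0 : ℂ) 1, ‖U ((w : ℂ) + ρ * ξ)‖ ^ 2 := integral_nonneg fun ξ => by positivity
    have h6 : Real.exp ((1 / 4 + T ^ 2) / (3 / 4 * w.im) ^ 2 * ρ ^ 2 / 2) ≤ Real.exp 1 := Real.exp_le_exp.2 h2
    have h7 := h1.trans (mul_le_mul_of_nonneg_right h6 h5)
    calc ‖U w‖ ^ 2 = Real.pi⁻¹ * (Real.pi * ‖U w‖ ^ 2) := by field_simp
      _ ≤ Real.pi⁻¹ * (Real.exp 1 * ∫ ξ in Metric.ball (0 : ℂ) 1, ‖U ((w : ℂ) + ρ * ξ)‖ ^ 2) := by gcongr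
      _ = _ := by ring
  have h5 : ∫ ξ in Metric.ball (0 : ℂ) 1, ‖U ((w : ℂ) + ρ * ξ)‖ ^ p ≤
      (ρ ^ 2)⁻¹ * ((2 * w.im) ^ 2 * ∫ z in Metric.ball w δ, ‖U (z : ℍ)‖ ^ p) := by
    rw [scale (F := fun z => ‖U z‖ ^ p) (w : ℂ) hρ]
    gcongr
    exact to_hyp hUp (fun z => by positivity) w hρ1 hρ2 hδ
  have hI0 : 0 ≤ ∫ ξ in Metric.ball (0 : ℂ) 1, ‖U ((w : ℂ) + ρ * ξ)‖ ^ 2 := integral_nonneg fun ξ => by positivity
  calc ‖U w‖ ^ p = (‖U w‖ ^ 2) ^ (p / 2) := (e3 _).symm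
    _ ≤ (Real.exp 1 * (Real.pi⁻¹ * ∫ ξ in Metric.ball (0 : ℂ) 1, ‖U ((w : ℂ) + ρ * ξ)‖ ^ 2)) ^ (p / 2) := by
        gcongr
    _ = Real.exp 1 ^ (p / 2) * (Real.pi⁻¹ * ∫ ξ in Metric.ball (0 : ℂ) 1, ‖U ((w : ℂ) + ρ * ξ)‖ ^ 2) ^ (p / 2) := by
        rw [Real.mul_rpow (by positivity) (by positivity)]
    _ ≤ Real.exp 1 ^ (p / 2) * (Real.pi⁻¹ * ((ρ ^ 2)⁻¹ * ((2 * w.im) ^ 2 *
          ∫ z in Metric.ball w δ, ‖U (z : ℍ)‖ ^ p))) := by
        gcongr
        exact h3.trans (mul_le_mul_of_nonneg_left h5 (by positivity))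
    _ = _ := by
        rw [hρd]
        field_simp
        ring


lemma deriv_ofReal (g : ℝ → ℝ) (s : ℝ) : deriv (fun s : ℝ => (g s : ℂ)) s = ((deriv g s : ℝ) : ℂ) := by
  by_cases h : DifferentiableAt ℝ g s
  · exact h.hasDerivAt.ofReal_comp.deriv
  · have h2 : ¬ DifferentiableAt ℝ (fun s : ℝ => (g s : ℂ)) s := fun h3 => h (by
      have := Complex.reCLM.differentiableAt.comp s h3
      simpa [Function.comp_def] using this)
    rw [deriv_zero_of_not_differentiableAt h, deriv_zero_of_not_differentiableAt h2, Complex.ofReal_zero]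

lemma deriv2_ofReal (g : ℝ → ℝ) (s : ℝ) :
    deriv (deriv (fun s : ℝ => (g s : ℂ))) s = ((deriv (deriv g) s : ℝ) : ℂ) := by
  have h : deriv (fun s : ℝ => (g s : ℂ)) = fun s => ((deriv g s : ℝ) : ℂ) := funext (deriv_ofReal g)
  rw [h, deriv_ofReal]

/-- the local bound with a constant `A ^ p` -/
theorem near (δ : ℝ) (hδ : 0 < δ) : ∃ A : ℝ, 1 ≤ A ∧ ∀ (p t : ℝ) (f : ℂ → ℝ), 2 ≤ p → 1 ≤ t → HeckeMaass t f →
    ∀ w : ℍ, |f w| ^ p ≤ A ^ p * t ^ 2 * ∫ z in Metric.ball w δ, |f (z : ℍ)| ^ p := by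
  set b : ℝ := max 1 (4 / (min (1 / 4) (δ / 4)) ^ 2 / Real.pi) with hb
  have hb1 : 1 ≤ b := le_max_left _ _
  have he : 1 ≤ Real.exp (1 / 2) := Real.one_le_exp (by norm_num)
  refine ⟨Real.exp (1 / 2) * b, by nlinarith, fun p t f hp ht hf w => ?_⟩
  have hn : ∀ z : ℂ, ‖(f z : ℂ)‖ = |f z| := fun z => by rw [Complex.norm_real, Real.norm_eq_abs]
  have h1 := local_gen p hp δ hδ (fun z => (f z : ℂ)) t ht
    (Complex.ofRealCLM.contDiff.comp_contDiffOn (contDiffOn_infty.1 hf.smooth 2))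
    (fun z hz => by
      have h2 := hf.eigen z hz
      have h3 := congrArg (fun x : ℝ => (x : ℂ)) h2
      push_cast at h3
      rw [deriv2_ofReal (fun s : ℝ => f (z + (s : ℂ))), deriv2_ofReal (fun s : ℝ => f (z + (s : ℂ) * Complex.I))]
      linear_combination h3) w
  simp only [hn] at h1
  have hI : 0 ≤ ∫ z in Metric.ball w δ, |f (z : ℍ)| ^ p := integral_nonneg fun z => by positivity
  have h3 : Real.exp 1 ^ (p / 2) / Real.pi * (4 / (min (1 / 4) (δ / 4)) ^ 2) ≤ (Real.exp (1 / 2) * b) ^ p := by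
    rw [Real.mul_rpow (Real.exp_pos _).le (by linarith)]
    have e1 : Real.exp (1 / 2) ^ p = Real.exp 1 ^ (p / 2) := by
      rw [← Real.exp_mul, ← Real.exp_mul]
      congr 1
      ring
    have h4 : 4 / (min (1 / 4) (δ / 4)) ^ 2 / Real.pi ≤ b ^ p :=
      (le_max_right _ _).trans ((Real.rpow_one b).symm.le.trans (Real.rpow_le_rpow_of_exponent_le hb1 (by linarith)))
    rw [e1]
    calc _ = Real.exp 1 ^ (p / 2) * (4 / (min (1 / 4) (δ / 4)) ^ 2 / Real.pi) := by ring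
      _ ≤ _ := by gcongr
  refine h1.trans ?_
  gcongr

/-- **Part (1).** -/
theorem part_one (z₀ : ℍ) (r : ℝ) (hr : Big z₀ r) (Ω : Set ℍ) (hΩ : IsCompact Ω) :
    ∃ K : ℝ, 1 ≤ K ∧ ∀ (p t : ℝ) (f : ℂ → ℝ), 2 ≤ p → 1 ≤ t → HeckeMaass t f → ∀ z ∈ Ω,
      |f (z : ℍ)| ^ p ≤ K ^ p * t ^ 2 * ∫ z in Metric.ball z₀ r, |f (z : ℍ)| ^ p := by
  obtain ⟨g, hg⟩ := hr
  have hy := (g • z₀).im_pos
  obtain ⟨r', hr1, hr2⟩ : ∃ r' : ℝ, r' < r ∧ 1 < 2 * r' * (g • z₀).im := by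
    refine ⟨(r + 1 / (2 * (g • z₀).im)) / 2, ?_, ?_⟩
    · have : 1 / (2 * (g • z₀).im) < r := by
        rw [div_lt_iff₀ (by positivity)]
        linarith
      linarith
    · have e : 2 * ((r + 1 / (2 * (g • z₀).im)) / 2) * (g • z₀).im = r * (g • z₀).im + 1 / 2 := by
        field_simp
      rw [e]
      linarith
  obtain ⟨C, k, hC, h⟩ := Pool.Agent.U766.SN.disc2 Pool.Agent.N889.SN.KK Pool.Agent.N889.SN.KK_nonneg z₀ g r' hr2 _
    (isCompact_coe hΩ) (coe_sub Ω)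
  obtain ⟨A, hA, h'⟩ := near (r - r') (by linarith)
  have hC1 : 1 ≤ max 1 C := le_max_left _ _
  refine ⟨max 1 C * A, by nlinarith, fun p t f hp ht hf z hz => ?_⟩
  have hp0 : 0 < p := by linarith
  have ht0 : 0 < t := by linarith
  have hn : ∀ z : ℂ, ‖(f z : ℂ)‖ = |f z| := fun z => by rw [Complex.norm_real, Real.norm_eq_abs]
  set I : ℝ := ∫ z in Metric.ball z₀ r, |f (z : ℍ)| ^ p with hI
  have hI0 : 0 ≤ I := integral_nonneg fun z => by positivity
  have hAp : 0 ≤ A ^ p := Real.rpow_nonneg (by linarith) _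
  have hX : 0 ≤ A ^ p * t ^ 2 * I := by positivity
  set m : ℝ := (A ^ p * t ^ 2 * I) ^ (1 / p) with hm
  have hm0 : 0 ≤ m := Real.rpow_nonneg hX _
  have hmp : m ^ p = A ^ p * t ^ 2 * I := by
    rw [hm, ← Real.rpow_mul hX, one_div_mul_cancel hp0.ne', Real.rpow_one]
  have hUc : Continuous fun z : ℍ => |f z| ^ p := cont_pow hf hp0
  have h1 := h (fun z => (f z : ℂ)) (good hf) z ⟨z, hz, rfl⟩ m hm0 (fun w hw _ => by
    obtain ⟨v, rfl, hv⟩ := hw
    rw [hn]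
    have h2 := h' p t f hp ht hf v
    have h3 : ∫ z in Metric.ball v (r - r'), |f (z : ℍ)| ^ p ≤ I := by
      refine setIntegral_mono_set (int_ball hUc z₀ r) (Eventually.of_forall fun z => by positivity) ?_
      refine Eventually.of_forall fun x hx => ?_
      have hx' : dist x v < r - r' := hx
      show dist x z₀ < r
      have := dist_triangle x v z₀
      linarith
    have h4 : |f v| ^ p ≤ m ^ p := by
      rw [hmp]
      exact h2.trans (mul_le_mul_of_nonneg_left h3 (by positivity))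
    exact (Real.rpow_le_rpow_iff (abs_nonneg _) hm0 hp0).1 h4)
  rw [hn] at h1
  have h5 : |f z| ≤ max 1 C * m := h1.trans (mul_le_mul_of_nonneg_right (le_max_right _ _) hm0)
  calc |f z| ^ p ≤ (max 1 C * m) ^ p := by gcongr
    _ = (max 1 C) ^ p * m ^ p := Real.mul_rpow (by linarith) hm0
    _ = ((max 1 C) ^ p * A ^ p) * t ^ 2 * I := by rw [hmp]; ring
    _ = _ := by rw [← Real.mul_rpow (by linarith) (by linarith)]

/-- from one moment to the sup norm -/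
theorem sup_of (z₀ : ℍ) (r : ℝ) (hr : Big z₀ r) (Ω : Set ℍ) (hΩ : IsCompact Ω) :
    ∃ K : ℝ, 1 ≤ K ∧ ∀ (p t m : ℝ) (f : ℂ → ℝ), 2 ≤ p → 1 ≤ t → 0 ≤ m → HeckeMaass t f →
      ∫ z in Metric.ball z₀ r, |f (z : ℍ)| ^ p ≤ m ^ p → ∀ z ∈ Ω, |f (z : ℍ)| ≤ K * t ^ (2 / p) * m := by
  obtain ⟨K, hK, h⟩ := part_one z₀ r hr Ω hΩ
  refine ⟨K, hK, fun p t m f hp ht hm hf h1 z hz => ?_⟩
  have hp0 : 0 < p := by linarith
  have ht0 : 0 < t := by linarith
  have hK0 : 0 < K := by linarith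
  have h2 := h p t f hp ht hf z hz
  have h3 : |f z| ^ p ≤ (K * t ^ (2 / p) * m) ^ p := by
    rw [Real.mul_rpow (by positivity) hm, Real.mul_rpow hK0.le (by positivity), ← Real.rpow_mul ht0.le,
      div_mul_cancel₀ _ hp0.ne', Real.rpow_two]
    exact h2.trans (mul_le_mul_of_nonneg_left h1 (by positivity))
  exact (Real.rpow_le_rpow_iff (abs_nonneg _) (by positivity) hp0).1 h3

lemma two_le_log {t : ℝ} (ht : Real.exp 2 ≤ t) : 2 ≤ Real.log t := by
  rw [Real.le_log_iff_exp_le (lt_of_lt_of_le (Real.exp_pos _) ht)]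
  exact ht

lemma one_le_of {t : ℝ} (ht : Real.exp 2 ≤ t) : 1 ≤ t := (Real.one_le_exp (by norm_num)).trans ht

lemma rpow_two_div_log {t : ℝ} (ht : Real.exp 2 ≤ t) : t ^ (2 / Real.log t) = Real.exp 2 := by
  have h1 := two_le_log ht
  have h2 := one_le_of ht
  rw [Real.rpow_def_of_pos (by linarith)]
  congr 1
  field_simp

lemma ball_fin (z₀ : ℍ) (r : ℝ) : volume (Metric.ball z₀ r) < ⊤ :=
  (measure_mono Metric.ball_subset_closedBall).trans_lt (isCompact_closedBall z₀ r).measure_lt_top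

/-- **Part (2).** -/
theorem part_two (z₀ : ℍ) (r : ℝ) (hr : Big z₀ r) (𝓕 : Set (ℝ × (ℂ → ℝ)))
    (hF : ∀ q ∈ 𝓕, Real.exp 2 ≤ q.1 ∧ HeckeMaass q.1 q.2) (G : ℝ → ℝ) (hG : ∀ t, 0 ≤ G t) :
    (∀ Ω : Set ℍ, IsCompact Ω → ∃ C : ℝ, ∀ q ∈ 𝓕, ∀ z ∈ Ω, |q.2 (z : ℍ)| ≤ C * G q.1) ↔
      ∃ C : ℝ, 0 ≤ C ∧ ∀ q ∈ 𝓕, ∫ z in Metric.ball z₀ r, |q.2 (z : ℍ)| ^ Real.log q.1 ≤
        (C * G q.1) ^ Real.log q.1 := by
  constructor
  · intro h
    obtain ⟨C, hC⟩ := h (Metric.closedBall z₀ r) (isCompact_closedBall z₀ r)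
    set V : ℝ := max 1 (volume.real (Metric.ball z₀ r)) with hV
    have hV1 : 1 ≤ V := le_max_left _ _
    refine ⟨V * |C|, by positivity, fun q hq => ?_⟩
    obtain ⟨h1, h2⟩ := hF q hq
    have h3 := two_le_log h1
    have hm : 0 ≤ |C| * G q.1 := mul_nonneg (abs_nonneg _) (hG _)
    have h4 : ∀ z ∈ Metric.ball z₀ r, |q.2 (z : ℍ)| ^ Real.log q.1 ≤ (|C| * G q.1) ^ Real.log q.1 := by
      intro z hz
      have h5 := (hC q hq z (Metric.ball_subset_closedBall hz)).trans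
        (mul_le_mul_of_nonneg_right (le_abs_self C) (hG _))
      gcongr
    calc ∫ z in Metric.ball z₀ r, |q.2 (z : ℍ)| ^ Real.log q.1
        ≤ ∫ z in Metric.ball z₀ r, (|C| * G q.1) ^ Real.log q.1 :=
          setIntegral_mono_on (int_ball (cont_pow h2 (by linarith)) z₀ r) (integrableOn_const (ball_fin z₀ r).ne)
            Metric.isOpen_ball.measurableSet h4
      _ = volume.real (Metric.ball z₀ r) * (|C| * G q.1) ^ Real.log q.1 := by
          rw [setIntegral_const, smul_eq_mul]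
      _ ≤ V ^ Real.log q.1 * (|C| * G q.1) ^ Real.log q.1 := by
          gcongr
          exact (le_max_right _ _).trans ((Real.rpow_one V).symm.le.trans
            (Real.rpow_le_rpow_of_exponent_le hV1 (by linarith)))
      _ = _ := by rw [← Real.mul_rpow (by linarith) hm, mul_assoc]
  · rintro ⟨C, hC0, hC⟩ Ω hΩ
    obtain ⟨K, hK, h⟩ := sup_of z₀ r hr Ω hΩ
    refine ⟨K * Real.exp 2 * C, fun q hq z hz => ?_⟩
    obtain ⟨h1, h2⟩ := hF q hq
    have h3 := h (Real.log q.1) q.1 (C * G q.1) q.2 (two_le_log h1) (one_le_of h1) (mul_nonneg hC0 (hG _)) h2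
      (hC q hq) z hz
    rw [rpow_two_div_log h1] at h3
    linarith

lemma rpow_le_exp {c k x : ℝ} (hc : 0 < c) (hk : 0 < k) (hx : 0 ≤ x) : x ^ k ≤ (k / c) ^ k * Real.exp (c * x) := by
  have h1 : c * x / k ≤ Real.exp (c * x / k) := by
    have := Real.add_one_le_exp (c * x / k)
    linarith
  have h2 : (c * x / k) ^ k ≤ Real.exp (c * x) := by
    calc (c * x / k) ^ k ≤ Real.exp (c * x / k) ^ k := by gcongr
      _ = Real.exp (c * x) := by
        rw [← Real.exp_mul]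
        congr 1
        field_simp
  calc x ^ k = ((k / c) * (c * x / k)) ^ k := by
        congr 1
        field_simp
    _ = (k / c) ^ k * (c * x / k) ^ k := Real.mul_rpow (by positivity) (by positivity)
    _ ≤ _ := by gcongr

/-- **Part (3).** -/
theorem part_three (z₀ : ℍ) (r : ℝ) (hr : Big z₀ r) (𝓕 : Set (ℝ × (ℂ → ℝ)))
    (hF : ∀ q ∈ 𝓕, Real.exp 2 ≤ q.1 ∧ HeckeMaass q.1 q.2) :
    (∀ Ω : Set ℍ, IsCompact Ω → ∃ C : ℝ, ∀ q ∈ 𝓕, ∀ z ∈ Ω, |q.2 (z : ℍ)| ≤ C * √(Real.log q.1)) ↔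
      ∃ c B : ℝ, 0 < c ∧ ∀ q ∈ 𝓕, ∫ z in Metric.ball z₀ r, Real.exp (c * q.2 (z : ℍ) ^ 2) ≤ q.1 ^ B := by
  constructor
  · intro h
    obtain ⟨C, hC⟩ := h (Metric.closedBall z₀ r) (isCompact_closedBall z₀ r)
    refine ⟨1, C ^ 2 + volume.real (Metric.ball z₀ r), one_pos, fun q hq => ?_⟩
    obtain ⟨h1, h2⟩ := hF q hq
    have h3 := two_le_log h1
    have ht := one_le_of h1
    have ht0 : 0 < q.1 := by linarith
    have h4 : ∀ z ∈ Metric.ball z₀ r, Real.exp (1 * q.2 (z : ℍ) ^ 2) ≤ q.1 ^ (C ^ 2) := by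
      intro z hz
      have h5 := hC q hq z (Metric.ball_subset_closedBall hz)
      rw [Real.rpow_def_of_pos ht0]
      refine Real.exp_le_exp.2 ?_
      have h6 : |q.2 (z : ℍ)| ^ 2 ≤ (C * √(Real.log q.1)) ^ 2 := by gcongr
      rw [sq_abs, mul_pow, Real.sq_sqrt (by linarith)] at h6
      linarith
    have hcont : Continuous fun z : ℍ => Real.exp (1 * q.2 (z : ℍ) ^ 2) :=
      Real.continuous_exp.comp (continuous_const.mul ((cont h2).pow 2))
    have hv : volume.real (Metric.ball z₀ r) ≤ q.1 ^ volume.real (Metric.ball z₀ r) := by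
      rw [Real.rpow_def_of_pos ht0]
      have h7 : 0 ≤ volume.real (Metric.ball z₀ r) := measureReal_nonneg
      have h8 := Real.add_one_le_exp (Real.log q.1 * volume.real (Metric.ball z₀ r))
      nlinarith
    calc ∫ z in Metric.ball z₀ r, Real.exp (1 * q.2 (z : ℍ) ^ 2)
        ≤ ∫ z in Metric.ball z₀ r, q.1 ^ (C ^ 2) :=
          setIntegral_mono_on (int_ball hcont z₀ r) (integrableOn_const (ball_fin z₀ r).ne)
            Metric.isOpen_ball.measurableSet h4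
      _ = volume.real (Metric.ball z₀ r) * q.1 ^ (C ^ 2) := by
          rw [setIntegral_const, smul_eq_mul]
      _ ≤ q.1 ^ volume.real (Metric.ball z₀ r) * q.1 ^ (C ^ 2) := by gcongr
      _ = _ := by rw [← Real.rpow_add ht0, add_comm]
  · rintro ⟨c, B, hc, hB⟩
    refine (part_two z₀ r hr 𝓕 hF (fun t => √(Real.log t)) fun t => Real.sqrt_nonneg _).2
      ⟨Real.exp B * √(1 / (2 * c)), by positivity, fun q hq => ?_⟩
    obtain ⟨h1, h2⟩ := hF q hq
    have h3 := two_le_log h1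
    have ht := one_le_of h1
    have ht0 : 0 < q.1 := by linarith
    have hl0 : 0 < Real.log q.1 := by linarith
    have h4 : ∀ z ∈ Metric.ball z₀ r, |q.2 (z : ℍ)| ^ Real.log q.1 ≤
        (Real.log q.1 / 2 / c) ^ (Real.log q.1 / 2) * Real.exp (c * q.2 (z : ℍ) ^ 2) := by
      intro z _
      have h5 := rpow_le_exp (c := c) (k := Real.log q.1 / 2) (x := q.2 (z : ℍ) ^ 2) hc (by linarith) (sq_nonneg _)
      refine le_trans (le_of_eq ?_) h5
      rw [← sq_abs, ← Real.rpow_two, ← Real.rpow_mul (abs_nonneg _)]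
      congr 1
      ring
    have hcont : Continuous fun z : ℍ => Real.exp (c * q.2 (z : ℍ) ^ 2) :=
      Real.continuous_exp.comp (continuous_const.mul ((cont h2).pow 2))
    have e1 : q.1 ^ B = Real.exp B ^ Real.log q.1 := by
      rw [Real.rpow_def_of_pos ht0, ← Real.exp_mul, mul_comm]
    have e2 : (Real.log q.1 / 2 / c) ^ (Real.log q.1 / 2) = (√(1 / (2 * c)) * √(Real.log q.1)) ^ Real.log q.1 := by
      rw [← Real.sqrt_mul (by positivity), Real.sqrt_eq_rpow, ← Real.rpow_mul (by positivity)]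
      congr 1
      · field_simp
      · ring
    calc ∫ z in Metric.ball z₀ r, |q.2 (z : ℍ)| ^ Real.log q.1
        ≤ ∫ z in Metric.ball z₀ r, (Real.log q.1 / 2 / c) ^ (Real.log q.1 / 2) * Real.exp (c * q.2 (z : ℍ) ^ 2) :=
          setIntegral_mono_on (int_ball (cont_pow h2 hl0) z₀ r) ((int_ball hcont z₀ r).const_mul _)
            Metric.isOpen_ball.measurableSet h4
      _ = (Real.log q.1 / 2 / c) ^ (Real.log q.1 / 2) * ∫ z in Metric.ball z₀ r, Real.exp (c * q.2 (z : ℍ) ^ 2) := by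
          rw [integral_const_mul]
      _ ≤ (Real.log q.1 / 2 / c) ^ (Real.log q.1 / 2) * q.1 ^ B := by
          gcongr
          exact hB q hq
      _ = _ := by
          rw [e1, e2, mul_comm, ← Real.mul_rpow (Real.exp_pos _).le (by positivity), mul_assoc]

/-- **Part (4).** -/
theorem part_four (z₀ : ℍ) (r : ℝ) (hr : Big z₀ r) (n : ℕ) (hn : 0 < n) (hne : Even n) (t : ℕ → ℝ)
    (f : ℕ → ℂ → ℝ) (hf : ∀ i, 1 ≤ t i ∧ HeckeMaass (t i) (f i)) (ψ : ℍ → ℝ) (hψ : Continuous ψ)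
    (hψc : HasCompactSupport ψ) (hψ0 : ∀ z, 0 ≤ ψ z) (hψ1 : ∀ z ∈ Metric.ball z₀ r, 1 ≤ ψ z)
    (B : ℝ) (hB : ∀ i, ∫ z, ψ z * f i (z : ℍ) ^ n ≤ B) (Ω : Set ℍ) (hΩ : IsCompact Ω) :
    ∃ C : ℝ, ∀ i, ∀ z ∈ Ω, |f i (z : ℍ)| ≤ C * t i ^ (2 / (n : ℝ)) := by
  obtain ⟨K, hK, h⟩ := sup_of z₀ r hr Ω hΩ
  have hn2 : (2 : ℝ) ≤ n := by
    obtain ⟨k, rfl⟩ := hne
    have : 1 ≤ k := by omega
    exact_mod_cast (by omega : 2 ≤ k + k)
  have hn0 : (0 : ℝ) < n := by linarith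
  refine ⟨K * |B| ^ (1 / (n : ℝ)), fun i z hz => ?_⟩
  obtain ⟨h1, h2⟩ := hf i
  have hpow : ∀ z : ℍ, |f i z| ^ (n : ℝ) = f i z ^ n := fun z => by
    rw [Real.rpow_natCast, hne.pow_abs]
  have hc : Continuous fun z : ℍ => f i z ^ n := (cont h2).pow n
  have hint : Integrable fun z : ℍ => ψ z * f i z ^ n :=
    (hψ.mul hc).integrable_of_hasCompactSupport hψc.mul_right
  have h3 : ∫ z in Metric.ball z₀ r, |f i (z : ℍ)| ^ (n : ℝ) ≤ (|B| ^ (1 / (n : ℝ))) ^ (n : ℝ) := by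
    rw [← Real.rpow_mul (abs_nonneg _), one_div_mul_cancel hn0.ne', Real.rpow_one]
    simp only [hpow]
    calc ∫ z in Metric.ball z₀ r, f i (z : ℍ) ^ n ≤ ∫ z in Metric.ball z₀ r, ψ z * f i (z : ℍ) ^ n := by
          refine setIntegral_mono_on (int_ball hc z₀ r) hint.integrableOn Metric.isOpen_ball.measurableSet
            fun z hz => ?_
          have := hψ1 z hz
          have h5 : 0 ≤ f i (z : ℍ) ^ n := hne.pow_nonneg _
          nlinarith
      _ ≤ ∫ z, ψ z * f i (z : ℍ) ^ n :=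
          setIntegral_le_integral hint (Eventually.of_forall fun z => mul_nonneg (hψ0 z) (hne.pow_nonneg _))
      _ ≤ |B| := (hB i).trans (le_abs_self B)
  have h4 := h n (t i) (|B| ^ (1 / (n : ℝ))) (f i) hn2 h1 (by positivity) h2 h3 z hz
  calc |f i z| ≤ K * t i ^ (2 / (n : ℝ)) * |B| ^ (1 / (n : ℝ)) := h4
    _ = _ := by ring

/-- the assertion of Q1 for one `n` (all sequences of forms, all test functions) -/
def MomentLaw (n : ℕ) : Prop :=
  ∀ (t : ℕ → ℝ) (f : ℕ → ℂ → ℝ), (∀ i, HeckeMaass (t i) (f i)) → Tendsto t atTop atTop →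
    ∀ ψ : ℍ → ℝ, Continuous ψ → HasCompactSupport ψ →
      Tendsto (fun i => ∫ z, ψ z * f i (z : ℍ) ^ n) atTop
        (𝓝 ((∫ x, x ^ n ∂ProbabilityTheory.gaussianReal 0 1) * ∫ z, ψ z))

lemma bump (z₀ : ℍ) (r : ℝ) : ∃ ψ : ℍ → ℝ, Continuous ψ ∧ HasCompactSupport ψ ∧ (∀ z, 0 ≤ ψ z) ∧
    ∀ z ∈ Metric.ball z₀ r, 1 ≤ ψ z := by
  obtain ⟨ψ, h1, -, h2, h3⟩ := exists_continuous_one_zero_of_isCompact (isCompact_closedBall z₀ r)
    (isClosed_empty (X := ℍ)) (Set.disjoint_empty _)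
  exact ⟨ψ, ψ.continuous, h2, fun z => (h3 z).1, fun z hz => (h1 (Metric.ball_subset_closedBall hz)).symm.le⟩

/-- **Part (5).** -/
theorem part_five (n : ℕ) (hn : 0 < n) (hne : Even n) (h : MomentLaw n) (Ω : Set ℍ) (hΩ : IsCompact Ω) :
    ∃ C t₀ : ℝ, ∀ (t : ℝ) (f : ℂ → ℝ), t₀ ≤ t → HeckeMaass t f → ∀ z ∈ Ω, |f (z : ℍ)| ≤ C * t ^ (2 / (n : ℝ)) := by
  by_contra hcon
  push Not at hcon
  choose t f ht hf z hz hlt using fun i : ℕ => hcon i (i + 1)
  have ht' : Tendsto t atTop atTop := tendsto_atTop_mono (fun i => by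
    have := ht i
    linarith) tendsto_natCast_atTop_atTop
  have hD : Big I 1 := big_disc _ _ (by
    rw [div_lt_one (by positivity)]
    rw [Real.lt_sqrt (by norm_num)]
    norm_num)
  obtain ⟨ψ, h1, h2, h3, h4⟩ := bump I 1
  obtain ⟨B, hB⟩ := (h t f hf ht' ψ h1 h2).bddAbove_range
  obtain ⟨C, hC⟩ := part_four I 1 hD n hn hne t f (fun i => ⟨by
    have := ht i
    have h5 : (0 : ℝ) ≤ i := Nat.cast_nonneg i
    linarith, hf i⟩) ψ h1 h2 h3 h4 B (fun i => hB ⟨i, rfl⟩) Ω hΩ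
  obtain ⟨i, hi⟩ := exists_nat_ge C
  have h5 := hC i (z i) (hz i)
  have h6 := hlt i
  have h7 : 0 ≤ t i ^ (2 / (n : ℝ)) := Real.rpow_nonneg (hf i).pos.le _
  have h8 : C * t i ^ (2 / (n : ℝ)) ≤ i * t i ^ (2 / (n : ℝ)) := by gcongr
  linarith

/-- **Part (6).** -/
theorem part_six (h : ∀ n : ℕ, 0 < n → MomentLaw n) (Ω : Set ℍ) (hΩ : IsCompact Ω) (ε : ℝ) (hε : 0 < ε) :
    ∃ t₀ : ℝ, ∀ (t : ℝ) (f : ℂ → ℝ), t₀ ≤ t → HeckeMaass t f → ∀ z ∈ Ω, |f (z : ℍ)| ≤ t ^ ε := by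
  obtain ⟨k, hk⟩ := exists_nat_ge (2 / ε)
  have hk0 : (0 : ℝ) < k := lt_of_lt_of_le (by positivity) hk
  have hk1 : 0 < k := by exact_mod_cast hk0
  obtain ⟨C, t₀, h1⟩ := part_five (2 * k) (by omega) (even_two_mul k) (h _ (by omega)) Ω hΩ
  set M : ℝ := max 1 C with hM
  have hM1 : 1 ≤ M := le_max_left _ _
  refine ⟨max t₀ (M ^ (2 / ε)), fun t f ht hf z hz => ?_⟩
  have h2 := h1 t f ((le_max_left _ _).trans ht) hf z hz
  have h3 : M ^ (2 / ε) ≤ t := (le_max_right _ _).trans ht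
  have h4 : 1 ≤ t := (Real.one_le_rpow hM1 (by positivity)).trans h3
  have ht0 : 0 < t := by linarith
  have h5 : M ≤ t ^ (ε / 2) := by
    calc M = (M ^ (2 / ε)) ^ (ε / 2) := by
          rw [← Real.rpow_mul (by linarith), div_mul_div_comm, mul_comm, div_self (by positivity), Real.rpow_one]
      _ ≤ t ^ (ε / 2) := by gcongr
  have h6 : (2 : ℝ) / ((2 * k : ℕ) : ℝ) ≤ ε / 2 := by
    push_cast
    rw [div_le_iff₀ hε] at hk
    rw [div_le_div_iff₀ (by positivity) (by positivity)]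
    nlinarith
  calc |f z| ≤ C * t ^ (2 / ((2 * k : ℕ) : ℝ)) := h2
    _ ≤ M * t ^ (2 / ((2 * k : ℕ) : ℝ)) := by
        gcongr
        exact le_max_right _ _
    _ ≤ t ^ (ε / 2) * t ^ (ε / 2) := by
        gcongr
    _ = t ^ ε := by
        rw [← Real.rpow_add ht0]
        congr 1
        ring

/-- **Main result.** Hecke-Maass cusp forms are real and normalised as in Q1, `t` is the spectral parameter,
`dμ = dx dy / y²`, and no constant depends on the forms. (0) `Big z₀ r` for all `z₀` if `r > 1 / √3`.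
Let `D` be the hyperbolic disc with centre `z₀` and radius `r`, and `Big z₀ r`.
(1) For compact `Ω` there is `K` with `|f z|^p ≤ K^p t² ∫_D |f|^p dμ` for all `p ≥ 2`, all forms `f` with
`t ≥ 1` and all `z ∈ Ω`.
(2) Let `𝓕` be a set of forms with `t ≥ e²` and `G ≥ 0` a function. Then on every compact set
`|f| ≤ C G(t)`, `f ∈ 𝓕`, if and only if there is `C` with `∫_D |f|^(log t) dμ ≤ (C G(t))^(log t)`, `f ∈ 𝓕`.
(3) For `𝓕` as in (2): on every compact set `|f| ≤ C √(log t)`, `f ∈ 𝓕`, if and only if there are `c > 0` and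
`B` with `∫_D exp (c f²) dμ ≤ t^B`, `f ∈ 𝓕`.
(4) Let `n > 0` be even and `ψ` a nonnegative continuous function with compact support, `ψ ≥ 1` on `D`. If
for a sequence of forms with `t i ≥ 1` the integrals `∫ ψ f_i^n dμ` are bounded above, then
`|f_i| ≤ C t_i^(2/n)` on every compact set.
(5) If Q1 is true for one even `n > 0` then `|f| ≤ C t^(2/n)` on every compact set for all forms with large `t`.
(6) If Q1 is true then for all `ε > 0`: `|f| ≤ t^ε` on every compact set for all forms with large `t`. -/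
theorem result :
    (∀ (z₀ : ℍ) (r : ℝ), 1 / √3 < r → Big z₀ r) ∧
    (∀ (z₀ : ℍ) (r : ℝ), Big z₀ r →
      (∀ Ω : Set ℍ, IsCompact Ω → ∃ K : ℝ, 1 ≤ K ∧ ∀ (p t : ℝ) (f : ℂ → ℝ), 2 ≤ p → 1 ≤ t → HeckeMaass t f →
        ∀ z ∈ Ω, |f (z : ℍ)| ^ p ≤ K ^ p * t ^ 2 * ∫ z in Metric.ball z₀ r, |f (z : ℍ)| ^ p) ∧
      (∀ 𝓕 : Set (ℝ × (ℂ → ℝ)), (∀ q ∈ 𝓕, Real.exp 2 ≤ q.1 ∧ HeckeMaass q.1 q.2) →
        (∀ G : ℝ → ℝ, (∀ t, 0 ≤ G t) →
          ((∀ Ω : Set ℍ, IsCompact Ω → ∃ C : ℝ, ∀ q ∈ 𝓕, ∀ z ∈ Ω, |q.2 (z : ℍ)| ≤ C * G q.1) ↔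
            ∃ C : ℝ, 0 ≤ C ∧ ∀ q ∈ 𝓕, ∫ z in Metric.ball z₀ r, |q.2 (z : ℍ)| ^ Real.log q.1 ≤
              (C * G q.1) ^ Real.log q.1)) ∧
        ((∀ Ω : Set ℍ, IsCompact Ω → ∃ C : ℝ, ∀ q ∈ 𝓕, ∀ z ∈ Ω, |q.2 (z : ℍ)| ≤ C * √(Real.log q.1)) ↔
          ∃ c B : ℝ, 0 < c ∧ ∀ q ∈ 𝓕, ∫ z in Metric.ball z₀ r, Real.exp (c * q.2 (z : ℍ) ^ 2) ≤ q.1 ^ B)) ∧
      (∀ n : ℕ, 0 < n → Even n → ∀ ψ : ℍ → ℝ, Continuous ψ → HasCompactSupport ψ → (∀ z, 0 ≤ ψ z) →
        (∀ z ∈ Metric.ball z₀ r, 1 ≤ ψ z) → ∀ (t : ℕ → ℝ) (f : ℕ → ℂ → ℝ), (∀ i, 1 ≤ t i ∧ HeckeMaass (t i) (f i)) →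
        ∀ B : ℝ, (∀ i, ∫ z, ψ z * f i (z : ℍ) ^ n ≤ B) → ∀ Ω : Set ℍ, IsCompact Ω →
          ∃ C : ℝ, ∀ i, ∀ z ∈ Ω, |f i (z : ℍ)| ≤ C * t i ^ (2 / (n : ℝ)))) ∧
    (∀ n : ℕ, 0 < n → Even n → MomentLaw n → ∀ Ω : Set ℍ, IsCompact Ω →
      ∃ C t₀ : ℝ, ∀ (t : ℝ) (f : ℂ → ℝ), t₀ ≤ t → HeckeMaass t f → ∀ z ∈ Ω, |f (z : ℍ)| ≤ C * t ^ (2 / (n : ℝ))) ∧
    ((∀ n : ℕ, 0 < n → MomentLaw n) → ∀ Ω : Set ℍ, IsCompact Ω → ∀ ε : ℝ, 0 < ε →
      ∃ t₀ : ℝ, ∀ (t : ℝ) (f : ℂ → ℝ), t₀ ≤ t → HeckeMaass t f → ∀ z ∈ Ω, |f (z : ℍ)| ≤ t ^ ε) :=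
  ⟨big_disc, fun z₀ r hr => ⟨part_one z₀ r hr, fun 𝓕 hF => ⟨fun G hG => part_two z₀ r hr 𝓕 hF G hG,
    part_three z₀ r hr 𝓕 hF⟩, fun n hn hne ψ h1 h2 h3 h4 t f hf B hB Ω hΩ =>
      part_four z₀ r hr n hn hne t f hf ψ h1 h2 h3 h4 B hB Ω hΩ⟩, part_five,
    fun h Ω hΩ ε hε => part_six h Ω hΩ ε hε⟩

end Pool.Agent.Results.MP_a54f13_nt.SupNormFromOneMoment
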