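import Mathlib
import Pool.Agent.U766.LL.Loc
import Pool.Agent.U766.LL.Vol
import Pool.Agent.U766.LL.Both
import Pool.Agent.Results.MP_a54f13_nt.MomentsAreLocal

set_option autoImplicit false

/-!
# MP_a54f13_nt: the values of Hecke-Maass forms on one disc and on the modular surface

`HeckeMaass t f`: `f` is a real Hecke-Maass cusp form for the full modular group with spectral parameter
`t`, normalised by `(3 / π) ∫ f² dμ = 1` over the fundamental domain `𝒟`, which represents the modular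
surface `X`. All areas (`volume` on `ℍ`) are with respect to `dμ = dx dy / y²`. `Big z₀ r`: some modular
translate of `z₀` has height greater than `1 / (2 r)` (this holds for all `z₀` if `r > 1 / √3`); `D` is the
hyperbolic disc with centre `z₀` and radius `r`.

(1) A sequence of forms tends to zero in measure on `D` if and only if it does on `X`.
(2) Let `S` be `X` or a compact set. Uniformly for all forms with large `t` and `|f| ≥ ε` on a part of `S`
of area at least `η`, the values of `f` on `D` have a density bounded below on an interval around zero.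
(3) This holds for all forms with large `t`, second moment on `S` at least `m₀` (for `S = X` it is `π / 3`)
and `p`-th moment on `S` at most `B`, where `p > 2`.
(4) If the values of a sequence of forms, with a weight which is at least `1` on `D`, follow the Gaussian
law in the limit, then the limit laws on all compact sets have Gaussian tails.

Proof of (2): the cubic inequality of the starting result `PositiveDensity` (MP_a52643_an) gives a positive
density of values between `0` and `b` on a disc if the mass of the values beyond `b` on the disc is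
bounded below. As the mean over the disc tends to zero and the second moment is bounded, both signs have
such a mass if the values do not tend to zero in measure on the disc. By `MomentsAreLocal` (large values on
compact sets are controlled by large values on the disc) and the smallness of the cusp they do not if they
do not tend to zero in measure on `X`. All constants are uniform.
-/

namespace Pool.Agent.Results.MP_a54f13_nt.ValuesOnDiscs

open MeasureTheory UpperHalfPlane Filter Topology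
open scoped ContDiff ENNReal MatrixGroups Modular
open Pool.Agent.Results.MP_a54f13_nt.MomentsAreLocal (HeckeMaass Big gauss cont good one isCompact_coe coe_sub)
open Pool.Agent.Results.MP_a52643_an.AbsoluteContinuity (lapl LocL2 Test)
open Pool.Agent.U766.LL
open Pool.Agent.Y139.PD (Hyp law)

/-- the functions `f i` tend to zero in measure on `S` -/
def ToZero (f : ℕ → ℂ → ℝ) (S : Set ℍ) : Prop :=
  ∀ ε : ℝ, 0 < ε → Tendsto (fun i => volume {z : ℍ | z ∈ S ∧ ε ≤ |f i z|}) atTop (𝓝 0)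

lemma lint_ind {S : Set ℍ} {g : ℍ → ℝ} (hg : Continuous g) (s : ℝ) :
    ∫⁻ z in S, (Set.Ici s).indicator (1 : ℝ → ℝ≥0∞) (g z) = volume {z : ℍ | z ∈ S ∧ s ≤ g z} := by
  have hm : MeasurableSet (g ⁻¹' Set.Ici s) := hg.measurable measurableSet_Ici
  have e : (fun z : ℍ => (Set.Ici s).indicator (1 : ℝ → ℝ≥0∞) (g z)) = (g ⁻¹' Set.Ici s).indicator 1 := by
    funext z
    by_cases hz : z ∈ g ⁻¹' Set.Ici s
    · rw [Set.indicator_of_mem hz, Set.indicator_of_mem (show g z ∈ Set.Ici s from hz)]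
      rfl
    · rw [Set.indicator_of_notMem hz, Set.indicator_of_notMem (show g z ∉ Set.Ici s from hz)]
  rw [e, lintegral_indicator_one hm, Measure.restrict_apply hm]
  congr 1
  ext z
  exact and_comm

lemma ind_mono (s : ℝ) : Monotone ((Set.Ici s).indicator (1 : ℝ → ℝ≥0∞)) := by
  intro x y hxy
  by_cases hx : x ∈ Set.Ici s
  · have hy : y ∈ Set.Ici s := le_trans (show s ≤ x from hx) hxy
    rw [Set.indicator_of_mem hx, Set.indicator_of_mem hy]
    rfl
  · rw [Set.indicator_of_notMem hx]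
    exact bot_le

lemma ind_zero {s : ℝ} (hs : 0 < s) : (Set.Ici s).indicator (1 : ℝ → ℝ≥0∞) 0 = 0 :=
  Set.indicator_of_notMem (fun h : s ≤ 0 => absurd hs (not_lt.2 h)) _

lemma meas_ball (z₀ : ℍ) (r : ℝ) : MeasurableSet (Metric.ball z₀ r) := Metric.isOpen_ball.measurableSet

/-- part (1) -/
theorem toDisc (z₀ : ℍ) (r : ℝ) (hr : Big z₀ r) (Ω : Set ℍ) (hΩ : IsCompact Ω) :
    ∃ C M : ℝ, 0 < C ∧ 0 < M ∧ ∀ (t : ℝ) (f : ℂ → ℝ), HeckeMaass t f → ∀ s : ℝ, 0 < s →
      volume {z : ℍ | z ∈ Ω ∧ s ≤ |f z|} ≤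
        ENNReal.ofReal M * volume {z : ℍ | z ∈ Metric.ball z₀ r ∧ s ≤ C * |f z|} := by
  obtain ⟨C, hC, M, h⟩ := one z₀ r hr Ω hΩ
  refine ⟨C, M + 1, hC, by positivity, fun t f hf s hs => ?_⟩
  have h1 := h t f hf _ (ind_mono s) (ind_zero hs)
  rw [lint_ind (cont hf).abs, lint_ind ((cont hf).abs.const_mul C)] at h1
  refine h1.trans ?_
  gcongr
  rw [ENNReal.ofReal_add (by positivity) zero_le_one, ENNReal.ofReal_natCast]
  exact le_self_add

lemma meas_fd : MeasurableSet 𝒟 := by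
  have h1 : IsClosed 𝒟 := by
    have : (𝒟 : Set ℍ) = {z : ℍ | 1 ≤ Complex.normSq z} ∩ {z : ℍ | |z.re| ≤ 1 / 2} := rfl
    rw [this]
    exact (isClosed_le continuous_const (Complex.continuous_normSq.comp UpperHalfPlane.continuous_coe)).inter
      (isClosed_le UpperHalfPlane.continuous_re.abs continuous_const)
  exact h1.measurableSet

lemma norm_eq (f : ℂ → ℝ) (z : ℂ) : ‖(f z : ℂ)‖ = |f z| := by rw [Complex.norm_real, Real.norm_eq_abs]

/-- compact sets are controlled by the fundamental domain -/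
theorem toX (Ω : Set ℍ) (hΩ : IsCompact Ω) :
    ∃ C M : ℝ, 0 < C ∧ 0 < M ∧ ∀ (t : ℝ) (f : ℂ → ℝ), HeckeMaass t f → ∀ φ : ℝ → ℝ≥0∞, Monotone φ → φ 0 = 0 →
      ∫⁻ z in Ω, φ |f (z : ℍ)| ≤ ENNReal.ofReal M * ∫⁻ z in 𝒟, φ (C * |f (z : ℍ)|) := by
  obtain ⟨C, k, hC, h⟩ := toFd Pool.Agent.N889.SN.KK Pool.Agent.N889.SN.KK_nonneg _ (isCompact_coe hΩ) (coe_sub Ω)
  refine ⟨C, (Pool.Agent.U766.SN.F k).card + 1, hC, by positivity, fun t f hf φ hφ hφ0 => ?_⟩
  have h1 := integ' hΩ.isClosed.measurableSet meas_fd h (good hf)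
    (by simp only [norm_eq]; exact (cont hf).abs.measurable) φ hφ hφ0
  simp only [norm_eq] at h1
  refine h1.trans ?_
  gcongr
  rw [ENNReal.ofReal_add (by positivity) zero_le_one, ENNReal.ofReal_natCast]
  exact le_self_add

/-- the normalisation -/
lemma l2 {t : ℝ} {f : ℂ → ℝ} (hf : HeckeMaass t f) :
    ∫⁻ z in 𝒟, ENNReal.ofReal (|f (z : ℍ)| ^ 2) = ENNReal.ofReal (Real.pi / 3) := by
  have hm : Measurable (fun z : ℍ => ENNReal.ofReal (|f z| ^ 2)) :=
    (ENNReal.continuous_ofReal.comp ((cont hf).abs.pow 2)).measurable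
  have hint : ∫ z in {z : ℂ | 0 < z.im ∧ |z.re| ≤ 1 / 2 ∧ 1 ≤ ‖z‖}, |f z| ^ 2 / z.im ^ 2 = Real.pi / 3 := by
    have h1 := hf.norm
    have hpi := Real.pi_pos
    simp only [sq_abs]
    generalize (∫ z in {z : ℂ | 0 < z.im ∧ |z.re| ≤ 1 / 2 ∧ 1 ≤ ‖z‖}, f z ^ 2 / z.im ^ 2) = I at h1 ⊢
    rw [div_mul_eq_mul_div, div_eq_one_iff_eq hpi.ne'] at h1
    linarith
  rw [Pool.Agent.N889.SN.lint_eq (fun z => ENNReal.ofReal (|f z| ^ 2 / z.im ^ 2)) _ hm]
  · have hi : Integrable (fun z : ℂ => |f z| ^ 2 / z.im ^ 2)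
        (volume.restrict {z : ℂ | 0 < z.im ∧ |z.re| ≤ 1 / 2 ∧ 1 ≤ ‖z‖}) := by
      by_contra hni
      rw [integral_undef hni] at hint
      have := Real.pi_pos
      linarith
    rw [← ofReal_integral_eq_lintegral_ofReal hi (Filter.Eventually.of_forall fun z => by positivity), hint]
  · intro z
    have hz := z.im_pos
    have e : (((1 / NNReal.mk z.im z.im_pos.le : NNReal) ^ 2 : NNReal) : ℝ≥0∞) = ENNReal.ofReal ((1 / z.im) ^ 2) := by
      rw [ENNReal.ofReal, ENNReal.coe_inj]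
      ext
      rw [Real.coe_toNNReal _ (by positivity)]
      simp
    rw [e, ← ENNReal.ofReal_mul (by positivity)]
    congr 1
    rw [UpperHalfPlane.coe_im]
    field_simp

/-- the local second moments are bounded, uniformly in the form -/
lemma bdd (Ω : Set ℍ) (hΩ : IsCompact Ω) : ∃ B : ℝ, 0 < B ∧ ∀ (t : ℝ) (f : ℂ → ℝ), HeckeMaass t f →
    ∫⁻ z in Ω, ENNReal.ofReal (f (z : ℍ) ^ 2) ≤ ENNReal.ofReal B := by
  obtain ⟨C, M, hC, hM, h⟩ := toX Ω hΩ
  have hpi := Real.pi_pos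
  refine ⟨M * (C ^ 2 * (Real.pi / 3)), by positivity, fun t f hf => ?_⟩
  have h1 := h t f hf (fun x => ENNReal.ofReal ((max x 0) ^ 2)) (fun x y hxy => by
    refine ENNReal.ofReal_le_ofReal ?_
    gcongr) (by simp)
  have e1 : ∀ x : ℝ, max |x| 0 = |x| := fun x => max_eq_left (abs_nonneg x)
  have e2 : ∀ x : ℝ, max (C * |x|) 0 = C * |x| := fun x => max_eq_left (by positivity)
  simp only [e1, e2, mul_pow] at h1
  have hm : Measurable (fun z : ℍ => ENNReal.ofReal (|f z| ^ 2)) :=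
    (ENNReal.continuous_ofReal.comp ((cont hf).abs.pow 2)).measurable
  have e3 : ∀ x : ℝ, ENNReal.ofReal (C ^ 2 * |x| ^ 2) = ENNReal.ofReal (C ^ 2) * ENNReal.ofReal (|x| ^ 2) :=
    fun x => ENNReal.ofReal_mul (by positivity)
  simp only [e3] at h1
  rw [lintegral_const_mul _ hm, l2 hf, ← ENNReal.ofReal_mul (by positivity), ← ENNReal.ofReal_mul hM.le] at h1
  simpa only [sq_abs] using h1

lemma contOn {t : ℝ} {f : ℂ → ℝ} (hf : HeckeMaass t f) : ContinuousOn f HP := hf.smooth.continuousOn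

lemma locL2 (f : ℕ → ℂ → ℝ) (t : ℕ → ℝ) (hf : ∀ n, HeckeMaass (t n) (f n)) : LocL2 HP f := by
  intro K hK hKH
  have hK' : IsCompact (UpperHalfPlane.coe ⁻¹' K) := by
    rw [UpperHalfPlane.isOpenEmbedding_coe.isEmbedding.isInducing.isCompact_preimage_iff]
    · exact hK
    · intro z hz
      exact ⟨⟨z, hKH hz⟩, rfl⟩
  have himg : (fun z : ℍ => (z : ℂ)) '' (UpperHalfPlane.coe ⁻¹' K) = K := by
    ext z
    constructor
    · rintro ⟨w, hw, rfl⟩
      exact hw
    · intro hz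
      exact ⟨⟨z, hKH hz⟩, hz, rfl⟩
  obtain ⟨B, hB, h⟩ := bdd _ hK'
  obtain ⟨R, hR⟩ := hK.isBounded.exists_norm_le
  refine ⟨R ^ 2 * B, Eventually.of_forall fun n => ?_⟩
  have hm : Measurable (fun z : ℍ => ENNReal.ofReal (f n z ^ 2)) :=
    (ENNReal.continuous_ofReal.comp ((cont (hf n)).pow 2)).measurable
  have h1 := h (t n) (f n) (hf n)
  rw [lint_set hK'.isClosed.measurableSet (fun z => ENNReal.ofReal (rho z) * ENNReal.ofReal (f n z ^ 2)) _ hm
    (fun z => rfl), himg] at h1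
  have hi : IntegrableOn (fun z => f n z ^ 2) K :=
    (((contOn (hf n)).mono hKH).pow 2).integrableOn_compact hK
  have hle : ENNReal.ofReal (∫ z in K, f n z ^ 2) ≤ ENNReal.ofReal (R ^ 2 * B) := by
    rw [ofReal_integral_eq_lintegral_ofReal hi (Eventually.of_forall fun z => by positivity),
      ENNReal.ofReal_mul (by positivity)]
    calc ∫⁻ z in K, ENNReal.ofReal (f n z ^ 2)
        ≤ ∫⁻ z in K, ENNReal.ofReal (R ^ 2) * (ENNReal.ofReal (rho z) * ENNReal.ofReal (f n z ^ 2)) := by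
          refine setLIntegral_mono' hK.measurableSet fun z hz => ?_
          rw [← ENNReal.ofReal_mul (rho_pos (hKH hz)).le, ← ENNReal.ofReal_mul (by positivity)]
          refine ENNReal.ofReal_le_ofReal ?_
          have hz0 : 0 < z.im := hKH hz
          have h2 : z.im ≤ R := (le_abs_self _).trans ((Complex.abs_im_le_norm z).trans (hR z hz))
          have h3 : 1 ≤ R ^ 2 * rho z := by
            unfold rho
            rw [mul_one_div, le_div_iff₀ (by positivity), one_mul]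
            gcongr
          have h4 := mul_le_mul_of_nonneg_right h3 (sq_nonneg (f n z))
          linarith
      _ = ENNReal.ofReal (R ^ 2) * ∫⁻ z in K, ENNReal.ofReal (rho z) * ENNReal.ofReal (f n z ^ 2) :=
          lintegral_const_mul' _ _ ENNReal.ofReal_ne_top
      _ ≤ _ := by gcongr
  rwa [ENNReal.ofReal_le_ofReal_iff (by positivity)] at hle

lemma hyp (f : ℕ → ℂ → ℝ) (t : ℕ → ℝ) (hf : ∀ n, HeckeMaass (t n) (f n)) (ht : ∀ n : ℕ, (n : ℝ) ≤ t n) :
    Hyp HP rho (fun n => 1 / 4 + t n ^ 2) f := by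
  refine ⟨isOpen_HP, rho_smooth, fun z hz => rho_pos hz, ?_, fun n => (hf n).smooth, fun n z hz => ?_, locL2 f t hf⟩
  · refine tendsto_atTop_mono (fun n => ?_) tendsto_natCast_atTop_atTop
    have h1 := ht n
    have h2 : t n ≤ 1 / 4 + t n ^ 2 := by nlinarith [sq_nonneg (t n - 1 / 2)]
    exact h1.trans h2
  · have h1 := (hf n).eigen z hz
    rw [lapl_eq (hf n).smooth hz]
    have hz0 : 0 < z.im := hz
    set S := deriv (deriv (fun s : ℝ => f n (z + (s : ℂ)))) 0 +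
      deriv (deriv (fun s : ℝ => f n (z + (s : ℂ) * Complex.I))) 0
    unfold rho
    have h2 : S = -((1 / 4 + t n ^ 2) * f n z) / z.im ^ 2 := by
      rw [eq_div_iff (by positivity)]
      linarith
    rw [h2]
    field_simp
    ring

/-- the second moments with a test function, uniformly in the form -/
lemma moment {φ : ℂ → ℝ} (hφ : Test HP φ) (h1 : ∀ z, φ z ≤ 1) {D : Set ℍ} (hD : IsCompact D)
    (hs : ∀ z, φ z ≠ 0 → z ∈ (fun z : ℍ => (z : ℂ)) '' D) : ∃ m : ℝ, 0 < m ∧ ∀ (t : ℝ) (f : ℂ → ℝ),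
    HeckeMaass t f → ∫ z, φ z * (rho z * f z ^ 2) ≤ m := by
  obtain ⟨B, hB, h⟩ := bdd D hD
  refine ⟨B, hB, fun t f hf => ?_⟩
  have hDm := hD.isClosed.measurableSet
  have hm : Measurable (fun z : ℍ => ENNReal.ofReal (f z ^ 2)) :=
    (ENNReal.continuous_ofReal.comp ((cont hf).pow 2)).measurable
  have h2 := h t f hf
  rw [lint_set hDm (fun z => ENNReal.ofReal (rho z) * ENNReal.ofReal (f z ^ 2)) _ hm (fun z => rfl)] at h2
  have hc : ContinuousOn (fun z => rho z * f z ^ 2) (tsupport φ) :=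
    (rho_smooth.continuousOn.mul ((contOn hf).pow 2)).mono hφ.2.2.1
  have hi : Integrable (fun z => φ z * (rho z * f z ^ 2)) := by
    have hco : ContinuousOn (fun z => φ z * (rho z * f z ^ 2)) (tsupport φ) := hφ.1.continuous.continuousOn.mul hc
    have hcomp : IsCompact (tsupport φ) := hφ.2.1
    refine (hco.integrableOn_compact hcomp).integrable_of_forall_notMem_eq_zero fun z hz => ?_
    rw [image_eq_zero_of_notMem_tsupport hz, zero_mul]
  have hnn : ∀ z, 0 ≤ φ z * (rho z * f z ^ 2) := by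
    intro z
    rcases eq_or_ne (φ z) 0 with h0 | h0
    · rw [h0, zero_mul]
    · obtain ⟨w, hw, rfl⟩ := hs z h0
      exact mul_nonneg (hφ.2.2.2 _) (mul_nonneg (rho_pos w.im_pos).le (sq_nonneg _))
  have hle : ENNReal.ofReal (∫ z, φ z * (rho z * f z ^ 2)) ≤ ENNReal.ofReal B := by
    rw [ofReal_integral_eq_lintegral_ofReal hi (Eventually.of_forall hnn)]
    refine le_trans ?_ h2
    rw [← lintegral_indicator (measurableEmbedding_coe.measurableSet_image.2 hDm)]
    refine lintegral_mono fun z => ?_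
    rcases eq_or_ne (φ z) 0 with h0 | h0
    · simp only [h0, zero_mul, ENNReal.ofReal_zero]
      exact bot_le
    · have hz := hs z h0
      rw [Set.indicator_of_mem hz]
      obtain ⟨w, hw, rfl⟩ := hz
      have hr := rho_pos w.im_pos
      rw [← ENNReal.ofReal_mul hr.le]
      refine ENNReal.ofReal_le_ofReal ?_
      have := mul_le_mul_of_nonneg_right (h1 w) (mul_nonneg hr.le (sq_nonneg (f w)))
      linarith
  rwa [ENNReal.ofReal_le_ofReal_iff hB.le] at hle

lemma big_small {z₀ : ℍ} {r : ℝ} (hr : Big z₀ r) : ∃ r' : ℝ, 0 < r' ∧ r' < r ∧ Big z₀ r' := by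
  obtain ⟨g, hg⟩ := hr
  have hh := (g • z₀).im_pos
  set h := (g • z₀).im with hh'
  have h1 : 1 / (2 * h) < r := by
    rw [div_lt_iff₀ (by positivity)]
    linarith
  have h0 : 0 < 1 / (2 * h) := by positivity
  refine ⟨(1 / (2 * h) + r) / 2, by linarith, by linarith, g, ?_⟩
  rw [← hh']
  have h2 : 2 * ((1 / (2 * h) + r) / 2) * h = 1 / 2 + r * h := by
    field_simp
  rw [h2]
  linarith

/-- cutting off the cusp -/
lemma cutoff (f : ℂ → ℝ) {Y : ℝ} (hY : 0 < Y) (ε : ℝ) :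
    volume {z : ℍ | z ∈ 𝒟 ∧ ε ≤ |f z|} ≤
      volume {z : ℍ | z ∈ ModularGroup.truncatedFundamentalDomain Y ∧ ε ≤ |f z|} + ENNReal.ofReal (1 / Y) := by
  refine le_trans ?_ ((measure_union_le _ _).trans (add_le_add le_rfl (vol_cusp hY)))
  refine measure_mono fun z hz => ?_
  rcases le_or_gt z.im Y with h | h
  · exact Or.inl ⟨⟨hz.1, h⟩, hz.2⟩
  · exact Or.inr ⟨hz.1.2, h⟩

/-- part (2) -/
theorem toZero_iff (z₀ : ℍ) (r : ℝ) (hr : Big z₀ r) (t : ℕ → ℝ) (f : ℕ → ℂ → ℝ)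
    (hf : ∀ i, HeckeMaass (t i) (f i)) : ToZero f (Metric.ball z₀ r) ↔ ToZero f 𝒟 := by
  constructor
  · intro h ε hε
    rw [ENNReal.tendsto_nhds_zero]
    intro e he
    obtain ⟨q, hq0, hqe⟩ := ENNReal.lt_iff_exists_nnreal_btwn.1 he
    have hq : (0 : ℝ) < q := by exact_mod_cast hq0
    have hY : (0 : ℝ) < 2 / q := by positivity
    obtain ⟨C, M, hC, hM, hCM⟩ := toDisc z₀ r hr _ (ModularGroup.isCompact_truncatedFundamentalDomain (2 / q))
    have h1 : Tendsto (fun i => ENNReal.ofReal M * volume {z : ℍ | z ∈ Metric.ball z₀ r ∧ ε / C ≤ |f i z|}) atTop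
        (𝓝 0) := by
      have := ENNReal.Tendsto.const_mul (h (ε / C) (by positivity)) (Or.inr (ENNReal.ofReal_ne_top (r := M)))
      simpa using this
    rw [ENNReal.tendsto_nhds_zero] at h1
    filter_upwards [h1 (ENNReal.ofReal (q / 2)) (by simpa using hq)] with i hi
    have e1 : {z : ℍ | z ∈ Metric.ball z₀ r ∧ ε ≤ C * |f i z|} = {z : ℍ | z ∈ Metric.ball z₀ r ∧ ε / C ≤ |f i z|} := by
      ext z
      show (_ ∧ _) ↔ (_ ∧ _)
      rw [div_le_iff₀' hC]
    have h2 := hCM (t i) (f i) (hf i) ε hε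
    rw [e1] at h2
    calc volume {z : ℍ | z ∈ 𝒟 ∧ ε ≤ |f i z|} ≤ _ := cutoff (f i) hY ε
      _ ≤ ENNReal.ofReal (q / 2) + ENNReal.ofReal (1 / (2 / q)) := by
        gcongr
        exact h2.trans hi
      _ = ENNReal.ofReal q := by
        rw [← ENNReal.ofReal_add (by positivity) (by positivity)]
        congr 1
        field_simp
        ring
      _ ≤ e := by
        rw [ENNReal.ofReal_coe_nnreal]
        exact hqe.le
  · intro h ε hε
    obtain ⟨C, M, hC, hM, hCM⟩ := toX _ (isCompact_closedBall z₀ r)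
    have h1 : Tendsto (fun i => ENNReal.ofReal M * volume {z : ℍ | z ∈ 𝒟 ∧ ε / C ≤ |f i z|}) atTop (𝓝 0) := by
      have := ENNReal.Tendsto.const_mul (h (ε / C) (by positivity)) (Or.inr (ENNReal.ofReal_ne_top (r := M)))
      simpa using this
    refine tendsto_of_tendsto_of_tendsto_of_le_of_le tendsto_const_nhds h1 (fun i => bot_le) fun i => ?_
    have h2 := hCM (t i) (f i) (hf i) _ (ind_mono ε) (ind_zero hε)
    rw [lint_ind (cont (hf i)).abs, lint_ind ((cont (hf i)).abs.const_mul C)] at h2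
    have e1 : {z : ℍ | z ∈ 𝒟 ∧ ε ≤ C * |f i z|} = {z : ℍ | z ∈ 𝒟 ∧ ε / C ≤ |f i z|} := by
      ext z
      show (_ ∧ _) ↔ (_ ∧ _)
      rw [div_le_iff₀' hC]
    rw [e1] at h2
    refine le_trans (measure_mono fun z hz => ?_) h2
    exact ⟨Metric.ball_subset_closedBall hz.1, hz.2⟩

/-- part (3) -/
theorem density (z₀ : ℍ) (r : ℝ) (hr : Big z₀ r) (ε η : ℝ) (hε : 0 < ε) (hη : 0 < η) :
    ∃ b c T : ℝ, 0 < b ∧ 0 < c ∧ ∀ (t : ℝ) (f : ℂ → ℝ), HeckeMaass t f → T ≤ t →
      ENNReal.ofReal η ≤ volume {z : ℍ | z ∈ 𝒟 ∧ ε ≤ |f z|} → ∀ A : Set ℝ, MeasurableSet A → A ⊆ Set.Ioo (-b) b →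
        ENNReal.ofReal c * volume A ≤ volume {z : ℍ | z ∈ Metric.ball z₀ r ∧ f z ∈ A} := by
  obtain ⟨r', hr0, hrr, hr'⟩ := big_small hr
  -- from the surface to the small disc
  have hY : (0 : ℝ) < 2 / η := by positivity
  obtain ⟨C, M, hC, hM, hCM⟩ := toDisc z₀ r' hr' _ (ModularGroup.isCompact_truncatedFundamentalDomain (2 / η))
  have hstep : ∀ (t : ℝ) (f : ℂ → ℝ), HeckeMaass t f → ENNReal.ofReal η ≤ volume {z : ℍ | z ∈ 𝒟 ∧ ε ≤ |f z|} →
      ENNReal.ofReal (η / (2 * M)) ≤ volume {z : ℍ | z ∈ Metric.ball z₀ r' ∧ ε / C ≤ |f z|} := by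
    intro t f hf h
    have h1 := h.trans (cutoff f hY ε)
    have h2 : ENNReal.ofReal (η / 2) ≤ volume {z : ℍ | z ∈ ModularGroup.truncatedFundamentalDomain (2 / η) ∧ ε ≤ |f z|} := by
      have e1 : ENNReal.ofReal η = ENNReal.ofReal (η / 2) + ENNReal.ofReal (1 / (2 / η)) := by
        rw [← ENNReal.ofReal_add (by positivity) (by positivity)]
        congr 1
        field_simp
        ring
      rw [e1] at h1
      exact (ENNReal.add_le_add_iff_right ENNReal.ofReal_ne_top).1 h1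
    have h3 := h2.trans (hCM t f hf ε hε)
    have e2 : {z : ℍ | z ∈ Metric.ball z₀ r' ∧ ε ≤ C * |f z|} = {z : ℍ | z ∈ Metric.ball z₀ r' ∧ ε / C ≤ |f z|} := by
      ext z
      show (_ ∧ _) ↔ (_ ∧ _)
      rw [div_le_iff₀' hC]
    rw [e2] at h3
    have e3 : ENNReal.ofReal (η / 2) = ENNReal.ofReal M * ENNReal.ofReal (η / (2 * M)) := by
      rw [← ENNReal.ofReal_mul hM.le]
      congr 1
      field_simp
    rw [e3] at h3
    exact (ENNReal.mul_le_mul_iff_right (by simpa using hM) ENNReal.ofReal_ne_top).1 h3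
  -- the test function
  have hopen : IsOpen ((fun z : ℍ => (z : ℂ)) '' Metric.ball z₀ r) :=
    UpperHalfPlane.isOpenEmbedding_coe.isOpenMap _ Metric.isOpen_ball
  obtain ⟨φ, hφ, hφ1, hφ2⟩ := exists_cut hopen (isCompact_coe (isCompact_closedBall z₀ r'))
    (Set.image_mono (Metric.closedBall_subset_ball hrr))
  have hφH : Test HP φ := ⟨hφ.1, hφ.2.1, hφ.2.2.1.trans (coe_sub _), hφ.2.2.2⟩
  have hsupp : ∀ z, φ z ≠ 0 → z ∈ (fun z : ℍ => (z : ℂ)) '' Metric.ball z₀ r := fun z hz =>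
    hφ.2.2.1 (subset_tsupport φ hz)
  obtain ⟨m, hm, hmom⟩ := moment hφH hφ2 (isCompact_closedBall z₀ r) (fun z hz =>
    Set.image_mono Metric.ball_subset_closedBall (hsupp z hz))
  obtain ⟨V, hV, hV'⟩ : ∃ V : ℝ, 0 < V ∧ ∫ z, φ z * rho z ≤ V :=
    ⟨|∫ z, φ z * rho z| + 1, by positivity, by linarith [le_abs_self (∫ z, φ z * rho z)]⟩
  obtain ⟨C₀, hC₀, hboth⟩ := both
  set δ := ε / C with hδ
  have δ0 : 0 < δ := by positivity
  set ζ := η / (2 * M) with hζ
  have ζ0 : 0 < ζ := by positivity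
  set b := δ * ζ / (8 * V) with hb
  have b0 : 0 < b := by positivity
  set β := b * ((δ * ζ) ^ 2 / (16 * m)) with hβ
  have β0 : 0 < β := by positivity
  have hc : 0 < β ^ 3 / (C₀ * m ^ 2) := by positivity
  by_contra hcon
  push Not at hcon
  choose! t f hf hT hη' A mA hA hlt using fun n : ℕ => hcon b (β ^ 3 / (C₀ * m ^ 2)) (n : ℝ) b0 hc
  have H := hyp f t hf hT
  have mT : MeasurableSet {x : ℝ | δ ≤ |x|} := measurableSet_le measurable_const measurable_id.abs
  have hev := hboth HP rho _ f H φ hφH m V δ ζ hm hV δ0 ζ0 (Eventually.of_forall fun n => hmom (t n) (f n) (hf n)) hV'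
    (Eventually.of_forall fun n => by
      have h1 := (hstep (t n) (f n) (hf n) (hη' n)).trans
        (law_ge (contOn (hf n)) hφH (meas_ball z₀ r') (fun z hz => hφ1 _ ⟨z, Metric.ball_subset_closedBall hz, rfl⟩) mT)
      rwa [ENNReal.ofReal_le_ofReal_iff (Pool.Agent.Y139.PD.law_nonneg isOpen_HP (contOn (hf n)) hφH
        (fun z hz => rho_pos hz) mT)] at h1)
  obtain ⟨n, hn⟩ := hev.exists
  have h1 := hn (A n) (mA n) (hA n)
  have h2 := law_le (contOn (hf n)) hφH (meas_ball z₀ r) hφ2 hsupp (mA n)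
  have h3 := (hlt n).trans_le' h2
  have hfin : volume (A n) ≠ ⊤ := ((measure_mono (hA n)).trans_lt measure_Ioo_lt_top).ne
  have l0 : 0 ≤ law HP φ rho (f n) (A n) := Pool.Agent.Y139.PD.law_nonneg isOpen_HP (contOn (hf n)) hφH
        (fun z hz => rho_pos hz) (mA n)
  rw [← ENNReal.ofReal_toReal hfin, ← ENNReal.ofReal_mul hc.le] at h3
  have h4 := (ENNReal.ofReal_lt_ofReal_iff_of_nonneg l0).1 h3
  rw [div_mul_eq_mul_div, lt_div_iff₀ (by positivity)] at h4
  linarith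


/-- part (3) for compact sets in place of the surface -/
theorem density' (z₀ : ℍ) (r : ℝ) (hr : Big z₀ r) (S : Set ℍ) (hS : S = 𝒟 ∨ IsCompact S) (ε η : ℝ) (hε : 0 < ε)
    (hη : 0 < η) :
    ∃ b c T : ℝ, 0 < b ∧ 0 < c ∧ ∀ (t : ℝ) (f : ℂ → ℝ), HeckeMaass t f → T ≤ t →
      ENNReal.ofReal η ≤ volume {z : ℍ | z ∈ S ∧ ε ≤ |f z|} → ∀ A : Set ℝ, MeasurableSet A → A ⊆ Set.Ioo (-b) b →
        ENNReal.ofReal c * volume A ≤ volume {z : ℍ | z ∈ Metric.ball z₀ r ∧ f z ∈ A} := by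
  rcases hS with rfl | hS
  · exact density z₀ r hr ε η hε hη
  · obtain ⟨C, M, hC, hM, hCM⟩ := toX _ hS
    obtain ⟨b, c, T, hb, hc, h⟩ := density z₀ r hr (ε / C) (η / M) (by positivity) (by positivity)
    refine ⟨b, c, T, hb, hc, fun t f hf hT h1 => h t f hf hT ?_⟩
    have h2 := hCM t f hf _ (ind_mono ε) (ind_zero hε)
    rw [lint_ind (cont hf).abs, lint_ind ((cont hf).abs.const_mul C)] at h2
    have e1 : {z : ℍ | z ∈ 𝒟 ∧ ε ≤ C * |f z|} = {z : ℍ | z ∈ 𝒟 ∧ ε / C ≤ |f z|} := by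
      ext z
      show (_ ∧ _) ↔ (_ ∧ _)
      rw [div_le_iff₀' hC]
    rw [e1] at h2
    have h3 := h1.trans h2
    have e3 : ENNReal.ofReal η = ENNReal.ofReal M * ENNReal.ofReal (η / M) := by
      rw [← ENNReal.ofReal_mul hM.le]
      congr 1
      field_simp
    rw [e3] at h3
    exact (ENNReal.mul_le_mul_iff_right (by simpa using hM) ENNReal.ofReal_ne_top).1 h3

/-- a continuous function of the values: `0` if `|x| ≤ l / 2` and `1` if `|x| ≥ l` -/
noncomputable def ramp (l x : ℝ) : ℝ := min 1 (max 0 (2 * |x| / l - 1))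

lemma ramp_cont (l : ℝ) : Continuous (ramp l) := by
  unfold ramp
  fun_prop

lemma ramp_nonneg (l x : ℝ) : 0 ≤ ramp l x := le_min zero_le_one (le_max_left _ _)

lemma ramp_le (l x : ℝ) : ramp l x ≤ 1 := min_le_left _ _

lemma ramp_one {l x : ℝ} (hl : 0 < l) (h : l ≤ |x|) : ramp l x = 1 := by
  unfold ramp
  have : 2 ≤ 2 * |x| / l := by
    rw [le_div_iff₀ hl]
    linarith
  exact min_eq_left (le_max_of_le_right (by linarith))

lemma ramp_zero {l x : ℝ} (hl : 0 < l) (h : |x| ≤ l / 2) : ramp l x = 0 := by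
  unfold ramp
  have : 2 * |x| / l ≤ 1 := by
    rw [div_le_iff₀ hl]
    linarith
  rw [max_eq_left (by linarith), min_eq_right zero_le_one]

lemma gauss_ramp {l : ℝ} (hl : 0 < l) : gauss (ramp l) ≤ 2 * Real.exp (-(l ^ 2) / 16) := by
  have hpi := Real.pi_pos
  have h1 : ∫ x : ℝ, ramp l x * Real.exp (-(x ^ 2) / 2) ≤
      ∫ x : ℝ, Real.exp (-(l ^ 2) / 16) * Real.exp (-(1 / 4) * x ^ 2) := by
    refine integral_mono_of_nonneg (Eventually.of_forall fun x => mul_nonneg (ramp_nonneg _ _) (Real.exp_pos _).le)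
      ((integrable_exp_neg_mul_sq (by norm_num)).const_mul _) (Eventually.of_forall fun x => ?_)
    show ramp l x * Real.exp (-(x ^ 2) / 2) ≤ Real.exp (-(l ^ 2) / 16) * Real.exp (-(1 / 4) * x ^ 2)
    rcases le_or_gt |x| (l / 2) with h | h
    · rw [ramp_zero hl h, zero_mul]
      positivity
    · have h2 : (l / 2) ^ 2 ≤ x ^ 2 := by
        rw [← sq_abs x]
        gcongr
      rw [← Real.exp_add]
      calc ramp l x * Real.exp (-(x ^ 2) / 2) ≤ 1 * Real.exp (-(x ^ 2) / 2) := by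
            gcongr
            exact ramp_le _ _
        _ = Real.exp (-(x ^ 2) / 2) := one_mul _
        _ ≤ Real.exp (-(l ^ 2) / 16 + -(1 / 4) * x ^ 2) := Real.exp_le_exp.2 (by nlinarith)
  rw [integral_const_mul, integral_gaussian] at h1
  unfold gauss
  have h3 : 1 / √(2 * Real.pi) * √(Real.pi / (1 / 4)) ≤ 2 := by
    have e1 : √(Real.pi / (1 / 4)) ≤ 2 * √(2 * Real.pi) := by
      rw [Real.sqrt_le_left (by positivity), mul_pow, Real.sq_sqrt (by positivity)]
      linarith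
    rw [one_div, ← div_eq_inv_mul, div_le_iff₀ (by positivity)]
    exact e1
  calc 1 / √(2 * Real.pi) * ∫ x : ℝ, ramp l x * Real.exp (-(x ^ 2) / 2)
      ≤ 1 / √(2 * Real.pi) * (Real.exp (-(l ^ 2) / 16) * √(Real.pi / (1 / 4))) := by gcongr
    _ = (1 / √(2 * Real.pi) * √(Real.pi / (1 / 4))) * Real.exp (-(l ^ 2) / 16) := by ring
    _ ≤ 2 * Real.exp (-(l ^ 2) / 16) := by gcongr

/-- part (4) -/
theorem tails (z₀ : ℍ) (r : ℝ) (hr : Big z₀ r) (Ω : Set ℍ) (hΩ : IsCompact Ω) (a : ℝ) (ha : 0 ≤ a) :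
    ∃ A c : ℝ, 0 < A ∧ 0 < c ∧ ∀ (t : ℕ → ℝ) (f : ℕ → ℂ → ℝ), (∀ i, HeckeMaass (t i) (f i)) →
      ∀ ψ : ℍ → ℝ, Continuous ψ → HasCompactSupport ψ → (∀ z, 0 ≤ ψ z) → (∀ z ∈ Metric.ball z₀ r, 1 ≤ ψ z) →
        ∫ z, ψ z ≤ a →
      (∀ g : ℝ → ℝ, Continuous g → (∃ M, ∀ x, |g x| ≤ M) →
        Tendsto (fun i => ∫ z : ℍ, ψ z * g (f i z)) atTop (𝓝 (gauss g * ∫ z : ℍ, ψ z))) →
      ∀ s : ℝ, 0 < s → ∀ᶠ i in atTop,
        volume {z : ℍ | z ∈ Ω ∧ s ≤ |f i z|} ≤ ENNReal.ofReal (A * Real.exp (-(c * s ^ 2))) := by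
  obtain ⟨C, M, hC, hM, hCM⟩ := toDisc z₀ r hr Ω hΩ
  refine ⟨M * (2 * a + 1), 1 / (16 * C ^ 2), by positivity, by positivity,
    fun t f hf ψ hψ hψc hψ0 hψ1 hψa hlaw s hs => ?_⟩
  set l := s / C with hl
  have l0 : 0 < l := by positivity
  have h1 := hlaw (ramp l) (ramp_cont l) ⟨1, fun x => by rw [abs_of_nonneg (ramp_nonneg _ _)]; exact ramp_le _ _⟩
  have hE := Real.exp_pos (-(l ^ 2) / 16)
  have hψI : 0 ≤ ∫ z, ψ z := integral_nonneg hψ0
  have h2 : gauss (ramp l) * ∫ z : ℍ, ψ z < (2 * a + 1) * Real.exp (-(l ^ 2) / 16) := by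
    have h3 := mul_le_mul_of_nonneg_right (gauss_ramp l0) hψI
    have h4 : 2 * Real.exp (-(l ^ 2) / 16) * ∫ z : ℍ, ψ z ≤ 2 * Real.exp (-(l ^ 2) / 16) * a := by gcongr
    nlinarith
  filter_upwards [h1.eventually (gt_mem_nhds h2)] with i hi
  have e2 : {z : ℍ | z ∈ Metric.ball z₀ r ∧ s ≤ C * |f i z|} = {z : ℍ | z ∈ Metric.ball z₀ r ∧ l ≤ |f i z|} := by
    ext z
    show (_ ∧ _) ↔ (_ ∧ _)
    rw [hl, div_le_iff₀' hC]
  have h3 := hCM (t i) (f i) (hf i) s hs
  rw [e2] at h3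
  have hmS : MeasurableSet {z : ℍ | z ∈ Metric.ball z₀ r ∧ l ≤ |f i z|} :=
    (meas_ball z₀ r).inter (measurableSet_le measurable_const (cont (hf i)).abs.measurable)
  have hc : Continuous fun z : ℍ => ψ z * ramp l (f i z) := hψ.mul ((ramp_cont l).comp (cont (hf i)))
  have hI : Integrable fun z : ℍ => ψ z * ramp l (f i z) := hc.integrable_of_hasCompactSupport hψc.mul_right
  have h4 : volume {z : ℍ | z ∈ Metric.ball z₀ r ∧ l ≤ |f i z|} ≤ ENNReal.ofReal (∫ z : ℍ, ψ z * ramp l (f i z)) := by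
    rw [ofReal_integral_eq_lintegral_ofReal hI (Eventually.of_forall fun z => mul_nonneg (hψ0 z) (ramp_nonneg _ _)),
      ← lintegral_indicator_one hmS]
    refine lintegral_mono fun z => ?_
    by_cases hz : z ∈ {z : ℍ | z ∈ Metric.ball z₀ r ∧ l ≤ |f i z|}
    · rw [Set.indicator_of_mem hz, Pi.one_apply, ← ENNReal.ofReal_one]
      refine ENNReal.ofReal_le_ofReal ?_
      rw [ramp_one l0 hz.2, mul_one]
      exact hψ1 z hz.1
    · rw [Set.indicator_of_notMem hz]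
      exact bot_le
  have e3 : -(1 / (16 * C ^ 2) * s ^ 2) = -(l ^ 2) / 16 := by
    rw [hl]
    field_simp
  rw [e3]
  calc volume {z : ℍ | z ∈ Ω ∧ s ≤ |f i z|} ≤ _ := h3
    _ ≤ ENNReal.ofReal M * ENNReal.ofReal ((2 * a + 1) * Real.exp (-(l ^ 2) / 16)) := by
      gcongr
      exact h4.trans (ENNReal.ofReal_le_ofReal hi.le)
    _ = ENNReal.ofReal (M * (2 * a + 1) * Real.exp (-(l ^ 2) / 16)) := by
      rw [← ENNReal.ofReal_mul hM.le]
      congr 1
      ring

lemma vol_fd : volume (𝒟 : Set ℍ) ≤ ENNReal.ofReal 2 := by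
  have h := vol_cusp (Y := 1 / 2) (by norm_num)
  have e : (1 : ℝ) / (1 / 2) = 2 := by norm_num
  rw [e] at h
  refine le_trans (measure_mono fun z hz => ?_) h
  refine ⟨hz.2, ?_⟩
  have h1 : 1 ≤ Complex.normSq z := hz.1
  have h2 : |z.re| ≤ 1 / 2 := hz.2
  have h3 := z.im_pos
  rw [Complex.normSq_apply, UpperHalfPlane.coe_re, UpperHalfPlane.coe_im] at h1
  have h4 := abs_le.1 h2
  by_contra h5
  have h6 : z.im ≤ 1 / 2 := not_lt.1 h5
  nlinarith

lemma vol_fin {S : Set ℍ} (hS : S = 𝒟 ∨ IsCompact S) : volume S ≠ ⊤ ∧ MeasurableSet S := by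
  rcases hS with rfl | hS
  · exact ⟨(vol_fd.trans_lt ENNReal.ofReal_lt_top).ne, meas_fd⟩
  · exact ⟨hS.measure_lt_top.ne, hS.isClosed.measurableSet⟩

/-- forms with a bounded `p`-th moment on a set have large values on a large part of it -/
lemma large_of_moment (S : Set ℍ) (hfin : volume S ≠ ⊤) (p : ℝ) (hp : 2 < p) (m₀ B : ℝ)
    (hm₀ : 0 < m₀) : ∃ ε η : ℝ, 0 < ε ∧ 0 < η ∧ ∀ (t : ℝ) (f : ℂ → ℝ), HeckeMaass t f →
      ENNReal.ofReal m₀ ≤ ∫⁻ z in S, ENNReal.ofReal (|f (z : ℍ)| ^ 2) →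
      ∫⁻ z in S, ENNReal.ofReal (|f (z : ℍ)| ^ p) ≤ ENNReal.ofReal B →
        ENNReal.ofReal η ≤ volume {z : ℍ | z ∈ S ∧ ε ≤ |f z|} := by
  obtain ⟨K, hK, hKB⟩ := Pool.Agent.Results.MP_a54f13_nt.MomentsAreLocal.small (A := |B|) (s := p - 2) (ε := m₀ / 4)
    (by linarith) (by positivity)
  set V := (volume S).toReal + 1 with hV
  have V0 : 0 < V := by positivity
  set ε := min 1 (m₀ / (4 * V)) with hε
  have ε0 : 0 < ε := lt_min one_pos (by positivity)
  have εV : ε ^ 2 * V ≤ m₀ / 4 := by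
    have h1 : ε ≤ 1 := min_le_left _ _
    have h2 : ε ≤ m₀ / (4 * V) := min_le_right _ _
    have h3 : ε ^ 2 ≤ m₀ / (4 * V) := by nlinarith
    calc ε ^ 2 * V ≤ m₀ / (4 * V) * V := by gcongr
      _ = m₀ / 4 := by field_simp
  refine ⟨ε, m₀ / (2 * K ^ 2), ε0, by positivity, fun t f hf hm h => ?_⟩
  have hm1 : MeasurableSet {z : ℍ | ε ≤ |f z|} := measurableSet_le measurable_const (cont hf).abs.measurable
  have hpt : ∀ z : ℍ, ENNReal.ofReal (|f z| ^ 2) ≤ ENNReal.ofReal (ε ^ 2) +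
      (ENNReal.ofReal (K ^ 2) * {z : ℍ | ε ≤ |f z|}.indicator 1 z +
        ENNReal.ofReal (K ^ (-(p - 2))) * ENNReal.ofReal (|f z| ^ p)) := by
    intro z
    rcases lt_or_ge |f z| ε with h1 | h1
    · refine le_trans (ENNReal.ofReal_le_ofReal ?_) le_self_add
      gcongr
    · rw [Set.indicator_of_mem (show z ∈ {z : ℍ | ε ≤ |f z|} from h1), Pi.one_apply, mul_one]
      refine le_trans ?_ le_add_self
      rcases le_or_gt |f z| K with h2 | h2
      · refine le_trans (ENNReal.ofReal_le_ofReal ?_) le_self_add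
        gcongr
      · refine le_trans ?_ le_add_self
        rw [← ENNReal.ofReal_mul (by positivity)]
        refine ENNReal.ofReal_le_ofReal ?_
        have h0 : 0 < |f z| := hK.trans h2
        have h3 : |f z| ^ p = |f z| ^ (p - 2) * |f z| ^ 2 := by
          rw [← Real.rpow_natCast, ← Real.rpow_add h0]
          congr 1
          push_cast
          ring
        rw [h3, ← mul_assoc]
        have h4 : 1 ≤ K ^ (-(p - 2)) * |f z| ^ (p - 2) := by
          have h5 : K ^ (p - 2) ≤ |f z| ^ (p - 2) := Real.rpow_le_rpow hK.le h2.le (by linarith)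
          calc (1 : ℝ) = K ^ (-(p - 2)) * K ^ (p - 2) := by rw [← Real.rpow_add hK]; simp
            _ ≤ _ := by gcongr
        have h6 := mul_le_mul_of_nonneg_right h4 (sq_nonneg |f z|)
        linarith
  have hm2 : Measurable fun z : ℍ => {z : ℍ | ε ≤ |f z|}.indicator (1 : ℍ → ℝ≥0∞) z :=
    measurable_one.indicator hm1
  have hm3 : Measurable fun z : ℍ => ENNReal.ofReal (|f z| ^ p) :=
    ((cont hf).abs.rpow_const fun _ => Or.inr (by linarith)).measurable.ennreal_ofReal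
  have h1 : ENNReal.ofReal m₀ ≤ ENNReal.ofReal (ε ^ 2) * ENNReal.ofReal V +
      (ENNReal.ofReal (K ^ 2) * volume {z : ℍ | z ∈ S ∧ ε ≤ |f z|} +
        ENNReal.ofReal (K ^ (-(p - 2))) * ENNReal.ofReal B) := by
    refine hm.trans ((lintegral_mono hpt).trans ?_)
    rw [lintegral_add_left measurable_const, lintegral_add_left (hm2.const_mul _), lintegral_const,
      lintegral_const_mul _ hm2, lintegral_const_mul _ hm3, Measure.restrict_apply_univ, lintegral_indicator_one hm1,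
      Measure.restrict_apply hm1]
    have e : {z : ℍ | ε ≤ |f z|} ∩ S = {z : ℍ | z ∈ S ∧ ε ≤ |f z|} := by
      ext z
      exact and_comm
    rw [e]
    gcongr
    rw [hV, ENNReal.ofReal_add ENNReal.toReal_nonneg zero_le_one, ENNReal.ofReal_toReal hfin]
    exact le_self_add
  rw [← ENNReal.ofReal_mul (by positivity), ← ENNReal.ofReal_mul (by positivity)] at h1
  have h2 : ENNReal.ofReal (K ^ (-(p - 2)) * B) ≤ ENNReal.ofReal (m₀ / 4) := by
    refine ENNReal.ofReal_le_ofReal (le_trans ?_ hKB)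
    gcongr
    exact le_abs_self B
  have h3 : ENNReal.ofReal m₀ ≤ ENNReal.ofReal (m₀ / 2) +
      ENNReal.ofReal (K ^ 2) * volume {z : ℍ | z ∈ S ∧ ε ≤ |f z|} := by
    refine h1.trans ?_
    calc ENNReal.ofReal (ε ^ 2 * V) + (ENNReal.ofReal (K ^ 2) * volume {z : ℍ | z ∈ S ∧ ε ≤ |f z|} +
          ENNReal.ofReal (K ^ (-(p - 2)) * B))
        ≤ ENNReal.ofReal (m₀ / 4) + (ENNReal.ofReal (K ^ 2) * volume {z : ℍ | z ∈ S ∧ ε ≤ |f z|} +
          ENNReal.ofReal (m₀ / 4)) := by gcongr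
      _ = (ENNReal.ofReal (m₀ / 4) + ENNReal.ofReal (m₀ / 4)) +
          ENNReal.ofReal (K ^ 2) * volume {z : ℍ | z ∈ S ∧ ε ≤ |f z|} := by ring
      _ = _ := by
        rw [← ENNReal.ofReal_add (by positivity) (by positivity)]
        congr 2
        ring
  have e4 : ENNReal.ofReal m₀ = ENNReal.ofReal (m₀ / 2) + ENNReal.ofReal (m₀ / 2) := by
    rw [← ENNReal.ofReal_add (by positivity) (by positivity)]
    congr 1
    ring
  rw [e4] at h3
  have h5 := (ENNReal.add_le_add_iff_left ENNReal.ofReal_ne_top).1 h3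
  have e3 : ENNReal.ofReal (m₀ / 2) = ENNReal.ofReal (K ^ 2) * ENNReal.ofReal (m₀ / (2 * K ^ 2)) := by
    rw [← ENNReal.ofReal_mul (by positivity)]
    congr 1
    field_simp
  rw [e3] at h5
  exact (ENNReal.mul_le_mul_iff_right (ENNReal.ofReal_pos.2 (pow_pos hK 2)).ne' ENNReal.ofReal_ne_top).1 h5

/-- **The values on every large disc.** -/
theorem result (z₀ : ℍ) (r : ℝ) (hr : Big z₀ r) :
    -- (1) convergence to zero in measure on the disc and on the surface
    (∀ (t : ℕ → ℝ) (f : ℕ → ℂ → ℝ), (∀ i, HeckeMaass (t i) (f i)) →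
      (ToZero f (Metric.ball z₀ r) ↔ ToZero f 𝒟)) ∧
    -- (2) otherwise the values on the disc have a positive density near zero
    (∀ S : Set ℍ, (S = 𝒟 ∨ IsCompact S) → ∀ ε η : ℝ, 0 < ε → 0 < η →
      ∃ b c T : ℝ, 0 < b ∧ 0 < c ∧ ∀ (t : ℝ) (f : ℂ → ℝ), HeckeMaass t f → T ≤ t →
        ENNReal.ofReal η ≤ volume {z : ℍ | z ∈ S ∧ ε ≤ |f z|} → ∀ A : Set ℝ, MeasurableSet A → A ⊆ Set.Ioo (-b) b →
          ENNReal.ofReal c * volume A ≤ volume {z : ℍ | z ∈ Metric.ball z₀ r ∧ f z ∈ A}) ∧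
    -- (3) in particular for forms with a bounded moment of order greater than two
    (∀ S : Set ℍ, (S = 𝒟 ∨ IsCompact S) → ∀ p m₀ B : ℝ, 2 < p → 0 < m₀ →
      ∃ b c T : ℝ, 0 < b ∧ 0 < c ∧ ∀ (t : ℝ) (f : ℂ → ℝ), HeckeMaass t f → T ≤ t →
        ENNReal.ofReal m₀ ≤ ∫⁻ z in S, ENNReal.ofReal (|f (z : ℍ)| ^ 2) →
        ∫⁻ z in S, ENNReal.ofReal (|f (z : ℍ)| ^ p) ≤ ENNReal.ofReal B →
          ∀ A : Set ℝ, MeasurableSet A → A ⊆ Set.Ioo (-b) b →
            ENNReal.ofReal c * volume A ≤ volume {z : ℍ | z ∈ Metric.ball z₀ r ∧ f z ∈ A}) ∧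
    -- (4) the Gaussian law on one disc gives Gaussian tails on all compact sets
    (∀ Ω : Set ℍ, IsCompact Ω → ∀ a : ℝ, 0 ≤ a → ∃ A c : ℝ, 0 < A ∧ 0 < c ∧ ∀ (t : ℕ → ℝ) (f : ℕ → ℂ → ℝ),
      (∀ i, HeckeMaass (t i) (f i)) →
      ∀ ψ : ℍ → ℝ, Continuous ψ → HasCompactSupport ψ → (∀ z, 0 ≤ ψ z) → (∀ z ∈ Metric.ball z₀ r, 1 ≤ ψ z) →
        ∫ z, ψ z ≤ a →
      (∀ g : ℝ → ℝ, Continuous g → (∃ M, ∀ x, |g x| ≤ M) →
        Tendsto (fun i => ∫ z : ℍ, ψ z * g (f i z)) atTop (𝓝 (gauss g * ∫ z : ℍ, ψ z))) →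
      ∀ s : ℝ, 0 < s → ∀ᶠ i in atTop,
        volume {z : ℍ | z ∈ Ω ∧ s ≤ |f i z|} ≤ ENNReal.ofReal (A * Real.exp (-(c * s ^ 2)))) := by
  refine ⟨fun t f hf => toZero_iff z₀ r hr t f hf,
    fun S hS ε η hε hη => density' z₀ r hr S hS ε η hε hη, fun S hS p m₀ B hp hm₀ => ?_,
    fun Ω hΩ a ha => tails z₀ r hr Ω hΩ a ha⟩
  obtain ⟨ε, η, hε, hη, h⟩ := large_of_moment S (vol_fin hS).1 p hp m₀ B hm₀
  obtain ⟨b, c, T, hb, hc, h'⟩ := density' z₀ r hr S hS ε η hε hη
  exact ⟨b, c, T, hb, hc, fun t f hf hT hm hB => h' t f hf hT (h t f hf hm hB)⟩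

end Pool.Agent.Results.MP_a54f13_nt.ValuesOnDiscs
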